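import Mathlib

/-! Squad GTO (MP_122998_co): explicit threshold for the orchard problem. Definitions. -/

namespace Pool.Agent.GTO

open Finset
open scoped Classical

/-- vectors of `R^3` (homogeneous coordinates of points and of lines) -/
abbrev V := Fin 3 → ℝ

/-- the determinant -/
def dt (u v w : V) : ℝ :=
  u 0 * (v 1 * w 2 - v 2 * w 1) - u 1 * (v 0 * w 2 - v 2 * w 0) + u 2 * (v 0 * w 1 - v 1 * w 0)

/-- the inner product -/
def ip (u v : V) : ℝ := u 0 * v 0 + u 1 * v 1 + u 2 * v 2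

/-- the cross product, `ip (cr u v) w = dt u v w` -/
def cr (u v : V) : V :=
  ![u 1 * v 2 - u 2 * v 1, u 2 * v 0 - u 0 * v 2, u 0 * v 1 - u 1 * v 0]

/-- cubic form with coefficients `c` (order `x³,x²y,x²z,xy²,xyz,xz²,y³,y²z,yz²,z³`) -/
def cub {R : Type*} [CommRing R] (c : Fin 10 → R) (v : Fin 3 → R) : R :=
  c 0 * v 0 ^ 3 + c 1 * v 0 ^ 2 * v 1 + c 2 * v 0 ^ 2 * v 2 + c 3 * v 0 * v 1 ^ 2 +
    c 4 * v 0 * v 1 * v 2 + c 5 * v 0 * v 2 ^ 2 + c 6 * v 1 ^ 3 + c 7 * v 1 ^ 2 * v 2 +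
    c 8 * v 1 * v 2 ^ 2 + c 9 * v 2 ^ 3

/-- quadratic form with coefficients `e` (order `x²,xy,xz,y²,yz,z²`) -/
def quad {R : Type*} [CommRing R] (e : Fin 6 → R) (v : Fin 3 → R) : R :=
  e 0 * v 0 ^ 2 + e 1 * v 0 * v 1 + e 2 * v 0 * v 2 + e 3 * v 1 ^ 2 + e 4 * v 1 * v 2 +
    e 5 * v 2 ^ 2

/-- the gradient of `cub c` at `v` -/
def grd {R : Type*} [CommRing R] (c : Fin 10 → R) (v : Fin 3 → R) : Fin 3 → R :=
  ![3 * c 0 * v 0 ^ 2 + 2 * c 1 * v 0 * v 1 + 2 * c 2 * v 0 * v 2 + c 3 * v 1 ^ 2 +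
      c 4 * v 1 * v 2 + c 5 * v 2 ^ 2,
    c 1 * v 0 ^ 2 + 2 * c 3 * v 0 * v 1 + c 4 * v 0 * v 2 + 3 * c 6 * v 1 ^ 2 +
      2 * c 7 * v 1 * v 2 + c 8 * v 2 ^ 2,
    c 2 * v 0 ^ 2 + c 4 * v 0 * v 1 + 2 * c 5 * v 0 * v 2 + c 7 * v 1 ^ 2 +
      2 * c 8 * v 1 * v 2 + 3 * c 9 * v 2 ^ 2]

/-- no line is contained in the cubic curve -/
def NoLine (c : Fin 10 → ℝ) : Prop :=
  ∀ u v : V, cr u v ≠ 0 → ∃ s t : ℝ, cub c (s • u + t • v) ≠ 0

/-- nonsingular real point of the curve -/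
def Ns (c : Fin 10 → ℝ) (v : V) : Prop := v ≠ 0 ∧ cub c v = 0 ∧ grd c v ≠ 0

variable {ι : Type} [Fintype ι]

/-- pairwise non-parallel vectors (distinct points of the projective plane) -/
def PI (a : ι → V) : Prop := ∀ i j, i ≠ j → cr (a i) (a j) ≠ 0

/-- not all points on a line -/
def Spn (a : ι → V) : Prop := ∃ i j k, dt (a i) (a j) (a k) ≠ 0

/-- the points on the line through the points `i` and `j` -/
noncomputable def ln (a : ι → V) (i j : ι) : Finset ι :=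
  univ.filter fun k => dt (a i) (a j) (a k) = 0

/-- the set of all lines spanned by the points -/
noncomputable def lns (a : ι → V) : Finset (Finset ι) :=
  (univ.filter fun p : ι × ι => p.1 ≠ p.2).image fun p => ln a p.1 p.2

/-- number of ordered pairs of distinct points whose line does not contain exactly 3 points;
this is `2 (C(n,2) - 3 t_3)` -/
noncomputable def D2 (a : ι → V) : ℕ :=
  (univ.filter fun p : ι × ι => p.1 ≠ p.2 ∧ (ln a p.1 p.2).card ≠ 3).card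

/-- points on a line with at least four points -/
noncomputable def Rich (a : ι → V) : Finset ι :=
  univ.filter fun i => ∃ j, j ≠ i ∧ 4 ≤ (ln a i j).card

/-- sign of a boolean -/
def sg (b : Bool) : ℝ := if b then 1 else -1

/-- the vectors with signs -/
def bv (a : ι → V) (σ : ι → Bool) (i : ι) : V := sg (σ i) • a i

/-- change of one sign -/
noncomputable def flp (σ : ι → Bool) (i : ι) : ι → Bool := Function.update σ i (!σ i)

/-- `σ` is a chamber (tope) of the arrangement of the planes orthogonal to the `a i` -/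
def Tope (a : ι → V) (σ : ι → Bool) : Prop := ∃ x : V, ∀ i, 0 < ip (bv a σ i) x

/-- all topes -/
noncomputable def topes (a : ι → V) : Finset (ι → Bool) := univ.filter fun σ => Tope a σ

/-- walls of the tope `σ` -/
noncomputable def walls (a : ι → V) (σ : ι → Bool) : Finset ι :=
  univ.filter fun i => Tope a (flp σ i)

/-- labelled data of a good tope: sign vector, three walls, and the third points of the three
sides: `u'` on the side `v w`, `v'` on the side `w u`, `w'` on the side `u v` -/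
structure Dat (ι : Type) where
  s : ι → Bool
  u : ι
  v : ι
  w : ι
  u' : ι
  v' : ι
  w' : ι

/-- good labelled data -/
def Good (a : ι → V) (d : Dat ι) : Prop :=
  [d.u, d.v, d.w, d.u', d.v', d.w'].Nodup ∧
  0 < dt (bv a d.s d.u) (bv a d.s d.v) (bv a d.s d.w) ∧
  ∀ l, l ≠ d.u → l ≠ d.v → l ≠ d.w →
    (0 ≤ dt (bv a d.s l) (bv a d.s d.v) (bv a d.s d.w) ∧
      (dt (bv a d.s l) (bv a d.s d.v) (bv a d.s d.w) = 0 ↔ l = d.u')) ∧
    (0 ≤ dt (bv a d.s d.u) (bv a d.s l) (bv a d.s d.w) ∧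
      (dt (bv a d.s d.u) (bv a d.s l) (bv a d.s d.w) = 0 ↔ l = d.v')) ∧
    (0 ≤ dt (bv a d.s d.u) (bv a d.s d.v) (bv a d.s l) ∧
      (dt (bv a d.s d.u) (bv a d.s d.v) (bv a d.s l) = 0 ↔ l = d.w'))

/-- good topes: triangular with three triple vertices -/
def IsGood (a : ι → V) (σ : ι → Bool) : Prop := ∃ d : Dat ι, d.s = σ ∧ Good a d

/-- rotation of the labels -/
def rot (d : Dat ι) : Dat ι := ⟨d.s, d.v, d.w, d.u, d.v', d.w', d.u'⟩

/-- crossing the third wall `w`: the new walls are `w`, `u'`, `v'` -/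
def Step (a : ι → V) (d e : Dat ι) : Prop :=
  Good a d ∧ Good a e ∧ e.s = flp d.s d.w ∧ e.u = d.w ∧ e.v = d.u' ∧ e.w = d.v' ∧
    e.v' = d.u ∧ e.w' = d.v

/-- one column of the strip of width 4 along the line `u`: from `f_i` to `f_(i+1)` -/
def Col (a : ι → V) (d f : Dat ι) : Prop :=
  ∃ fm g e gm h k : Dat ι, Step a (rot d) fm ∧ Step a d g ∧ Step a g e ∧ f = rot (rot e) ∧
    Step a (rot (rot fm)) gm ∧ Step a (rot (rot g)) h ∧ Step a h k

/-- `N` consecutive columns starting at `d` -/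
def NGood (a : ι → V) (N : ℕ) (d : Dat ι) : Prop :=
  Good a d ∧ ∃ f : ℕ → Dat ι, f 0 = d ∧ ∀ i < N, Col a (f i) (f (i + 1))

/-- number of pairs (good tope, wall) such that the tope behind the wall is not good -/
noncomputable def EE (a : ι → V) : ℕ :=
  (univ.filter fun p : (ι → Bool) × ι =>
    IsGood a p.1 ∧ Tope a (flp p.1 p.2) ∧ ¬ IsGood a (flp p.1 p.2)).card

/-- number of pairs (tope which is not good, wall) -/
noncomputable def BF (a : ι → V) : ℕ :=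
  (univ.filter fun p : (ι → Bool) × ι =>
    Tope a p.1 ∧ Tope a (flp p.1 p.2) ∧ ¬ IsGood a p.1).card

/-- `x`, `y`, `z` are exactly the points of a line of three points -/
def Tri (a : ι → V) (x y z : ι) : Prop :=
  x ≠ y ∧ y ≠ z ∧ z ≠ x ∧ ln a x y = {x, y, z}

/-- a run of `N` columns on the line `O` (four rows `Gm`, `O`, `G1`, `G2`) -/
def IsRun (a : ι → V) (N : ℕ) (O Gm G1 G2 : ι) (A B : ℕ → ι) : Prop :=
  (∀ i ≤ N + 1, Tri a O (A i) (B i)) ∧ (∀ i ≤ N, Tri a G1 (A i) (B (i + 1))) ∧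
  (∀ i ≤ N, Tri a Gm (A (i + 1)) (B i)) ∧ (∀ i < N, Tri a G2 (A i) (B (i + 2))) ∧
  (∀ i ≤ N + 1, ∀ j ≤ N + 1, A i ≠ B j ∧ (i ≠ j → A i ≠ A j ∧ B i ≠ B j)) ∧
  [O, Gm, G1, G2].Nodup ∧
  (∀ i ≤ N + 1, A i ≠ O ∧ A i ≠ Gm ∧ A i ≠ G1 ∧ B i ≠ O ∧ B i ≠ Gm ∧ B i ≠ G1) ∧
  (∀ i ≤ N, A i ≠ G2 ∧ B (i + 1) ≠ G2)

/-- the points of the configuration on the cubic -/
noncomputable def Zc (a : ι → V) (c : Fin 10 → ℝ) : Finset ι :=
  univ.filter fun i => cub c (a i) = 0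

/-- multiples -/
def Mul (c c' : Fin 10 → ℝ) : Prop := ∃ t : ℝ, c' = t • c

end Pool.Agent.GTO
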