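import Pool.Agent.GTO.Defs

/-! Squad GTO (MP_122998_co): statements of the modules, part A (arrangement, flips, walks).
Every statement is a row of the table `gto`; the docstring is its proof. `b l` stands for
`bv a σ l`, `n` for the number of points. -/

namespace Pool.Agent.GTO

open Finset
open scoped Classical

/-- the plane (subspace) orthogonal to `w` -/
def perp (w : V) : Submodule ℝ V where
  carrier := {x | ip w x = 0}
  add_mem' := by
    intro x y hx hy
    simp only [Set.mem_ofPred_eq, ip, Pi.add_apply] at *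
    linarith
  zero_mem' := by simp [ip]
  smul_mem' := by
    intro t x hx
    simp only [Set.mem_ofPred_eq, ip, Pi.smul_apply, smul_eq_mul] at *
    linear_combination t * hx

/-- sign vectors of the `a i`, `i ∈ s`, realised on the subspace `K` (normalised off `s`) -/
noncomputable def SV {ι : Type} [Fintype ι] (a : ι → V) (K : Submodule ℝ V) (s : Finset ι) :
    Finset (ι → Bool) :=
  univ.filter fun σ => (∀ i, i ∉ s → σ i = false) ∧ ∃ x ∈ K, ∀ i ∈ s, 0 < ip (bv a σ i) x

/-- number of lines through the point `i` -/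
noncomputable def rr {ι : Type} [Fintype ι] (a : ι → V) (i : ι) : ℕ :=
  ((lns a).filter fun ℓ => i ∈ ℓ).card

/-- BAS. Elementary facts. (1) `ip (cr u v) w = dt u v w`; (2) `dt` is cyclic, alternating;
(3) Cramer: `dt u v w • x = dt x v w • u + dt u x w • v + dt u v x • w`; (4) `cr u v ≠ 0` iff
`u, v` are linearly independent; (5) if `cr u v ≠ 0` then `dt u v x = 0` iff `x` is a linear
combination of `u, v`; (6) if `dt u v w ≠ 0` then for all reals `p q r` some `x` has `ip u x = p`,
`ip v x = q`, `ip w x = r` (take `(p • cr v w + q • cr w u + r • cr u v) / dt u v w`);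
(7) for `i ≠ j` in a family with `PI a`: `ln a i j = ln a k l` as soon as `k ≠ l` are in
`ln a i j`; so two different lines have at most one common point, and the sum over the lines
`ℓ` of `ℓ.card * (ℓ.card - 1)` is `n (n - 1)`; for each `i` the sum of `ℓ.card - 1` over the
lines through `i` is `n - 1`, the sum of `ℓ.card` over all lines is the sum of `rr a i`, and
`D2 a` is the sum of `ℓ.card * (ℓ.card - 1)` over the lines with `ℓ.card ≠ 3`. -/
def BasStmt : Prop :=
  (∀ u v w : V, ip (cr u v) w = dt u v w ∧ dt u v w = dt v w u ∧ dt u v w = - dt v u w) ∧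
  (∀ u v w x : V, dt u v w • x = dt x v w • u + dt u x w • v + dt u v x • w) ∧
  (∀ u v : V, cr u v ≠ 0 ↔ LinearIndependent ℝ ![u, v]) ∧
  (∀ u v x : V, cr u v ≠ 0 → (dt u v x = 0 ↔ ∃ s t : ℝ, x = s • u + t • v)) ∧
  (∀ u v w : V, dt u v w ≠ 0 → ∀ p q r : ℝ, ∃ x : V, ip u x = p ∧ ip v x = q ∧ ip w x = r) ∧
  (∀ (ι : Type) [Fintype ι] (a : ι → V), PI a →
    (∀ i j k l, i ≠ j → k ≠ l → k ∈ ln a i j → l ∈ ln a i j → ln a k l = ln a i j) ∧
    (∀ i j, i ≠ j → i ∈ ln a i j ∧ j ∈ ln a i j) ∧
    (∑ ℓ ∈ lns a, ℓ.card * (ℓ.card - 1) = Fintype.card ι * (Fintype.card ι - 1)) ∧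
    (∀ i, ∑ ℓ ∈ (lns a).filter (fun ℓ => i ∈ ℓ), (ℓ.card - 1) = Fintype.card ι - 1) ∧
    (∑ ℓ ∈ lns a, ℓ.card = ∑ i, rr a i) ∧
    (D2 a = ∑ ℓ ∈ (lns a).filter (fun ℓ => ℓ.card ≠ 3), ℓ.card * (ℓ.card - 1)) ∧
    (∀ ℓ ∈ lns a, 2 ≤ ℓ.card))

/-- DEL (deletion of one functional). Proof: the map (put `false` at `j`) sends
`SV a K (insert j s)` onto `SV a K s` (onto: if `x ∈ K` realises `σ` on `s` and `ip (a j) x = 0`
replace `x` by `x + ε y`, `y ∈ K` with `ip (a j) y ≠ 0`, `ε` small, finitely many strict
inequalities; then choose the sign at `j`). A fibre over `σ` has one or two elements, and two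
iff both signs at `j` are possible; by the segment between the two witnesses (the set of
witnesses on `s` is convex) this holds iff some `x ∈ K` with `ip (a j) x = 0` realises `σ` on `s`
(conversely `x ± ε y`). So the number of fibres with two elements is
`(SV a (K ⊓ perp (a j)) s).card`. -/
def DelStmt : Prop := ∀ (ι : Type) [Fintype ι] (a : ι → V) (K : Submodule ℝ V) (s : Finset ι)
  (j : ι), j ∉ s → (∃ x ∈ K, ip (a j) x ≠ 0) →
  (SV a K (insert j s)).card = (SV a K s).card + (SV a (K ⊓ perp (a j)) s).card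

/-- CIR (lines through one point). Uses BAS, DEL. Proof. Let `s` be a set of indices not
containing `i`, `K = perp (a i)`. (1) `(SV a K s).card = 2 * #{ln a i j : j ∈ s}` for `s`
nonempty, by induction on `s` with DEL: for `s = {j}` the sign of `a j` on the plane `K` takes
both values (`a j` is not parallel to `a i`). Adding `j`: `K ⊓ perp (a j)` is the line spanned
by `x = cr (a i) (a j)`; if no `k ∈ s` lies on `ln a i j` then all `ip (a k) x = dt .. ≠ 0` and
exactly two sign vectors (of `x` and `-x`) are realised; if some `k ∈ s` lies on `ln a i j` then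
`ip (a k)` vanishes on it and none is. (2) `σ` and `flp σ i` are both topes iff the signs of `σ`
off `i` are realised on `perp (a i)` (segment between the witnesses; conversely `x ± ε • a i`,
as `ip (a i) (a i) > 0`). So the number is `2 * (SV a (perp (a i)) (univ.erase i)).card`. -/
def CirStmt : Prop := ∀ (ι : Type) [Fintype ι] (a : ι → V), PI a → 2 ≤ Fintype.card ι →
  (∀ (i : ι) (s : Finset ι), i ∉ s → s.Nonempty →
    (SV a (perp (a i)) s).card = 2 * (s.image fun j => ln a i j).card) ∧
  ∀ i, (univ.filter fun σ => Tope a σ ∧ Tope a (flp σ i)).card = 4 * rr a i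

/-- TOT (number of topes). Uses BAS, DEL, CIR. Proof: `topes a = SV a ⊤ univ`. By induction on
the set `s` of the points already inserted, `s` nonempty, `(SV a ⊤ s).card` is
`2 + 2 * (the sum, over the sets ln a i j ∩ s with i ≠ j in s, of card - 1)`. For one point it is 2
(`a i ≠ 0` by `PI` and `2 ≤ n`). A new point `i` adds `(SV a (perp (a i)) s).card`, twice the
number of the lines `ln a i j`, `j ∈ s` (CIR part 1); in the sum each such line gains one point
if it had at least two points in `s`, and is a new term `2 - 1` if it had exactly one. -/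
def TotStmt : Prop := ∀ (ι : Type) [Fintype ι] (a : ι → V), PI a → 2 ≤ Fintype.card ι →
  (topes a).card = 2 + 2 * ∑ ℓ ∈ lns a, (ℓ.card - 1)

/-- FAR (Farkas). Proof. Let `W` be a set of smallest cardinality such that every `b l` is a
nonnegative combination of the `b w`, `w ∈ W` (the whole index set has the property). Claim:
`w ∈ W` is a wall. (1) `b w` is not a nonnegative combination of the `b l`, `l ≠ w`: otherwise
substitute the expressions of the `b l` through `W` and get `b w = ∑ v ∈ W, e v • b v`,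
`e v ≥ 0`. If `e w < 1` then `b w` is a nonnegative combination of the other elements of `W`
and `W` was not minimal. If `e w ≥ 1`, take the inner product with the witness `x` of the tope
(all `ip (b v) x > 0`): `e w = 1` and `e v = 0` for `v ≠ w`; so each `b l` with a positive
coefficient is a nonnegative multiple of `b w`, which contradicts `PI` (and no positive
coefficient at all gives `b w = 0`, also excluded by `PI` as `n ≥ 2`). (2) Farkas lemma: there is
`y` with `ip (b w) y < 0` and `ip (b l) y ≥ 0` for `l ≠ w` (separation of a point from a finitely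
generated cone; finitely generated cones are closed). (3) `y + ε x` with small `ε > 0`, then
`ip (b l) > 0` for `l ≠ w` and `ip (b w) < 0`: `flp σ w` is a tope. -/
def FarStmt : Prop := ∀ (ι : Type) [Fintype ι] (a : ι → V), PI a → 2 ≤ Fintype.card ι →
  ∀ σ, Tope a σ → ∃ W : Finset ι, W ⊆ walls a σ ∧ ∀ l, ∃ c : ι → ℝ, (∀ w, 0 ≤ c w) ∧
    (∀ w, w ∉ W → c w = 0) ∧ bv a σ l = ∑ w, c w • bv a σ w

/-- MEL (Melchior). Uses BAS, CIR, TOT, FAR. Proof: by FAR the `b w`, `w ∈ W ⊆ walls a σ`, span
`R^3` (`Spn`), so there are at least 3 walls. The sum of `(walls a σ).card` over the topes is the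
sum over `i` of the number of `σ` with `σ` and `flp σ i` topes, `4 ∑ i, rr a i = 4 ∑ ℓ, ℓ.card`;
subtract `3 (2 + 2 ∑ (ℓ.card - 1))`. -/
def MelStmt : Prop := ∀ (ι : Type) [Fintype ι] (a : ι → V), PI a → Spn a →
  (∀ σ ∈ topes a, 3 ≤ (walls a σ).card) ∧
  ∑ σ ∈ topes a, (((walls a σ).card : ℤ) - 3) = ∑ ℓ ∈ lns a, (6 - 2 * (ℓ.card : ℤ)) - 6

/-- TRI (triangular topes). Uses BAS, FAR. Proof: by FAR and `Spn` the set `W` is `{u, v, w}`
(three elements are needed to span), `b u, b v, b w` is a basis and all `b l` have coordinates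
`≥ 0`. The coordinate of `b l` at `b u` is `dt (b l) (b v) (b w) / dt (b u) (b v) (b w)` and is `0`
iff `l ∈ ln a v w`. If the three lines have 3 points, the third points are different from each
other and from `u, v, w`; order `v, w` such that the determinant is positive. -/
def TriStmt : Prop := ∀ (ι : Type) [Fintype ι] (a : ι → V), PI a → Spn a →
  ∀ (σ : ι → Bool) (u v w : ι), Tope a σ → walls a σ = {u, v, w} → u ≠ v → v ≠ w → w ≠ u →
  (∀ l, ∃ p q r : ℝ, 0 ≤ p ∧ 0 ≤ q ∧ 0 ≤ r ∧
    bv a σ l = p • bv a σ u + q • bv a σ v + r • bv a σ w) ∧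
  dt (bv a σ u) (bv a σ v) (bv a σ w) ≠ 0 ∧
  ((ln a u v).card = 3 → (ln a v w).card = 3 → (ln a w u).card = 3 → IsGood a σ)

/-- GDW (walls and sides of good data). Uses BAS. Proof: `b u, b v, b w` is a basis and by Cramer
every `b l` has coordinates `≥ 0`, not all zero, so `x` with `ip (b u) x = ip (b v) x =
ip (b w) x = 1` is a witness of the tope. `u` is a wall: take `ip (b v) x = ip (b w) x = 1`,
`ip (b u) x = -ε`: for `l ≠ u` the sum of the second and third coordinates of `b l` is positive
(else `b l` is parallel to `b u`). No other `l` is a wall: `b l` is a nonnegative combination of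
`b u, b v, b w`. The sides: `dt (b l) (b v) (b w) = 0` iff `l = u'` for `l ∉ {u, v, w}`. -/
def GdwStmt : Prop := ∀ (ι : Type) [Fintype ι] (a : ι → V), PI a → ∀ d : Dat ι, Good a d →
  Tope a d.s ∧ walls a d.s = {d.u, d.v, d.w} ∧ ln a d.v d.w = {d.v, d.w, d.u'} ∧
  ln a d.w d.u = {d.w, d.u, d.v'} ∧ ln a d.u d.v = {d.u, d.v, d.w'}

/-- NBR (the tope behind a wall of a good tope). Uses BAS, GDW. Proof. `w` is a wall of the tope
`F = flp d.s d.w`. `u'` is a wall of `F`: `x0 = cr (b v) (b w)` has `ip (b l) x0 ≥ 0`, with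
equality iff `l ∈ {v, w, u'}`; take `y` with `ip (b w) y = -1`, `ip (b v) y = δ > 0` so small that
`ip (b u') y < 0` (`b u'` is a positive combination of `b v, b w`), then `x0 + ε y` realises
`flp F u'`. In the same way `v'` (vertex `w, u, v'`). The two sides are known from GDW. -/
def NbrStmt : Prop := ∀ (ι : Type) [Fintype ι] (a : ι → V), PI a → ∀ d : Dat ι, Good a d →
  Tope a (flp d.s d.w) ∧ d.w ∈ walls a (flp d.s d.w) ∧ d.u' ∈ walls a (flp d.s d.w) ∧
  d.v' ∈ walls a (flp d.s d.w) ∧ ln a d.w d.u' = {d.w, d.u', d.v} ∧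
  ln a d.w d.v' = {d.w, d.v', d.u}

/-- FLP (flip rule). Uses BAS, GDW, NBR. Proof. `F = flp d.s d.w` is good, so it has exactly three
walls (GDW), and by NBR they are `w, u', v'`; let `e` be the good data of `F`, rotated such that
`e.u = w` (rotations of good data are good). In the signs `b'` of `F` (`b' w = - b w`, others
unchanged) `dt (b' w) (b' u') (b' v') > 0`: write `b u' = p b v + q b w`, `b v' = r b w + s b u` with
`p, q, r, s > 0`; the determinant is `p s dt (b u) (b v) (b w) > 0`. As `e` is positively oriented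
and its walls are `w, u', v'` with `e.u = w`, we get `e.v = u'`, `e.w = v'`. The third point of
the side `e.w, e.u`, i.e. of the line `ln w v' = {w, v', u}`, is `u`, and of the side `e.u, e.v`,
i.e. of `ln w u' = {w, u', v}`, is `v`. -/
def FlpStmt : Prop := ∀ (ι : Type) [Fintype ι] (a : ι → V), PI a → ∀ d : Dat ι, Good a d →
  IsGood a (flp d.s d.w) → ∃ e, Step a d e

/-- UNQ (uniqueness). Uses BAS, GDW. Proof: (1) cyclic symmetry of `dt` and of the definition.
(2) The walls and the sides are determined by the sign vector (GDW); given the first wall the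
order of the other two is determined by the sign of the determinant. (3) `e.s` and `e.u` are
determined by `d`. (4) `d.s = flp e.s e.u`, `d.w = e.u`, `d.u = e.v'`: use (2) for `rot (rot d)`
or for `d` (first walls equal). -/
def UnqStmt : Prop := ∀ (ι : Type) [Fintype ι] (a : ι → V), PI a →
  (∀ d, Good a d → Good a (rot d)) ∧
  (∀ d e, Good a d → Good a e → d.s = e.s → d.u = e.u → d = e) ∧
  (∀ d e e', Step a d e → Step a d e' → e = e') ∧
  (∀ d d' e, Step a d e → Step a d' e → d = d')

/-- COL (columns). Uses UNQ. Proof: every datum in the definition of `Col` is determined by the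
preceding one and conversely (UNQ); `f = rot (rot e)` with `e = (A', Z, O; Y, B, G)` when
`d = (O, A, B; G, A', B')`, so `f = (O, A', Z; G, Y, B)`. -/
def ColStmt : Prop := ∀ (ι : Type) [Fintype ι] (a : ι → V), PI a →
  (∀ d f f', Col a d f → Col a d f' → f = f') ∧
  (∀ d d' f, Col a d f → Col a d' f → d = d') ∧
  (∀ d f, Col a d f → Good a d ∧ Good a f ∧ f.u = d.u ∧ f.v = d.v' ∧ f.u' = d.u' ∧ f.w' = d.w)

/-- VTX (topes at a vertex). Uses BAS, TOT. Proof: `ℓ = ln a i j`; the `x ≠ 0` orthogonal to all
`a k`, `k ∈ ℓ`, are the nonzero multiples of `cr (a i) (a j)`; so the signs of `σ` off `ℓ` are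
one of two possibilities, and the restriction of `σ` to `ℓ` is a tope of the subfamily
`(a k), k ∈ ℓ`, which has only one line, so `2 + 2 (ℓ.card - 1)` topes by TOT. -/
def VtxStmt : Prop := ∀ (ι : Type) [Fintype ι] (a : ι → V), PI a → 2 ≤ Fintype.card ι →
  ∀ ℓ ∈ lns a, (univ.filter fun σ => Tope a σ ∧ ∃ x : V, x ≠ 0 ∧ (∀ i ∈ ℓ, ip (a i) x = 0) ∧
    ∀ i, i ∉ ℓ → 0 < ip (bv a σ i) x).card ≤ 4 * ℓ.card

/-- EBD (bound of the number of bad pairs). Uses BAS, MEL, TRI, GDW, NBR, VTX, UNQ. Proof. Let
`(σ, k)` be a pair counted by `EE a`, `F = flp σ k` (a tope, not good, `flp F k = σ` good; the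
pair is determined by `(F, k)`), `d` the good data of `σ` with `d.w = k`. By NBR
`k, u', v' ∈ walls a F` and `ln a k u'`, `ln a k v'` have 3 points.
(i) `(walls a F).card = 3`: then the walls are `k, u', v'`, the line `ℓ = ln a u' v'` does not
have 3 points (TRI), and `k` is determined by `F` (the wall not on the only bad line among the
three lines joining the walls). `x = ± cr (b' u') (b' v')`, sign such that `ip (b' k) x > 0`, shows
that `F` is counted by VTX for `ℓ` (all `b' l` are nonnegative combinations, TRI). So there are at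
most `∑ ℓ bad, 4 ℓ.card` such pairs. (ii) `(walls a F).card ≥ 4`: at most
`(walls a F).card ≤ 4 ((walls a F).card - 3)` pairs for each `F`, in all at most
`4 ∑ σ ∈ topes, ((walls a σ).card - 3) = 4 (∑ (6 - 2 ℓ.card) - 6)` (MEL; all terms are `≥ 0`).
Together `EE a ≤ ∑ ℓ bad, (24 - 4 ℓ.card) - 24` (in `ℤ`; lines of 3 points contribute 0 to the
second sum). For `m = 2`: `24 - 4 m = 16 = 8 m (m - 1)`; for `m ≥ 4`:
`24 - 4 m + 22 m ≤ 8 m (m - 1)`; `(Rich a).card ≤ ∑ over ℓ.card ≥ 4 of ℓ.card`; and
`D2 a = ∑ ℓ bad, ℓ.card (ℓ.card - 1)`. Second claim: `F` a tope which is not good; with at least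
4 walls: `4 ((walls).card - 3)`; with 3 walls: by TRI one of the lines joining two walls is bad
and `F` is counted by VTX for it, so at most `∑ ℓ bad, 4 ℓ.card` such topes, 3 walls each:
`BF a ≤ ∑ ℓ bad, (24 - 8 m + 12 m) - 24 ≤ 16 D2 a`. -/
def EbdStmt : Prop := ∀ (ι : Type) [Fintype ι] (a : ι → V), PI a → Spn a →
  EE a + 22 * (Rich a).card + 24 ≤ 8 * D2 a ∧ BF a ≤ 16 * D2 a

/-- CN6 (columns fail rarely). Uses GDW, NBR, FLP, UNQ. Proof. (1) The number of good `d` without
`e` with `Step a d e` is at most `EE a`: by FLP `flp d.s d.w` is not good (it is a tope, NBR), and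
`d ↦ (d.s, d.w)` is injective on good data (UNQ for the rotation with first wall `w`).
(2) In the definition of `Col` the six steps start at `rot d`, `d`, `g`, `rot (rot fm)`,
`rot (rot g)`, `h`, each of which is an injective function of `d` (UNQ; `rot` is injective) as
long as the earlier steps exist. If no `f` has `Col a d f`, one of the six steps is the first that
fails, and its starting point is a good datum without step: at most `6 * EE a` data. -/
def Cn6Stmt : Prop := ∀ (ι : Type) [Fintype ι] (a : ι → V), PI a →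
  {d : Dat ι | Good a d ∧ ¬ ∃ f, Col a d f}.ncard ≤ 6 * EE a

/-- CNN. Uses CN6, COL. Proof: if `d` is good and not `NGood a N d` then following `Col` from `d`
one arrives after `j < N` columns at a good datum without `Col`; for each `j` this is an injective
map (COL), so there are at most `N * (6 * EE a)` such `d`. -/
def CnnStmt : Prop := ∀ (ι : Type) [Fintype ι] (a : ι → V), PI a → ∀ N : ℕ,
  {d : Dat ι | Good a d ∧ ¬ NGood a N d}.ncard ≤ 6 * N * EE a

/-- LVX (flags at a point). Uses BAS, CIR, GDW, UNQ. Proof. (1) `d ↦ d.s` is a bijection from the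
good data with `d.u = p` to the good topes having `p` as a wall (UNQ, GDW); all topes with wall
`p` are `4 * rr a p` (CIR). (2) Let `ℓ ∋ p` be a line, `q ∈ ℓ`, `q ≠ p`. For good `d` with `d.u = p`
and `ln a d.u d.v = ℓ` the vector `x = cr (b p) (b v)` has `ip (b l) x > 0` for `l ∉ ℓ`
(`dt (b u) (b v) (b l) > 0`, GDW) and is a nonzero multiple of `cr (a p) (a q)`. The sign of this
multiple, the sign `d.s p` determine `d.s`: off `ℓ` clear; on `ℓ = {p, v, w'}` (GDW): the vectors
`y ∈ ℓ` in the plane with `b w'` a positive combination of `b p` and `b v` and orientation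
`cr (b p) (b v) ∥ +x`, hence also `cr (b p) (b w') ∥ +x`: for each `k ∈ ℓ`, `k ≠ p`, the sign
`d.s k` is the one for which `cr (b p) (b k)` is a positive multiple of `x`. So there are at most
4 such `d` (UNQ). -/
def LvxStmt : Prop := ∀ (ι : Type) [Fintype ι] (a : ι → V), PI a → 2 ≤ Fintype.card ι →
  (∀ p, {d : Dat ι | Good a d ∧ d.u = p}.ncard +
    (univ.filter fun σ => Tope a σ ∧ Tope a (flp σ p) ∧ ¬ IsGood a σ).card = 4 * rr a p) ∧
  ∀ p, ∀ ℓ : Finset ι, {d : Dat ι | Good a d ∧ d.u = p ∧ ln a d.u d.v = ℓ}.ncard ≤ 4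

/-- DIS (the vertices of a run are different). Uses BAS, GDW, COL. Here `O = (f 0).u`,
`A i = (f i).v`, `B i = (f i).w'`. Proof. From `f i` to `f (i+1)` the sign vector changes exactly at
`(f i).w = B (i+1)` and `(f i).v' = A (i+1)` (two `Step`s). As `2N + 5 < n` there is an index `l`
different from `O` and from all `A i, B i`, `i ≤ N`. Then `b l` and `b O` are the same in all
`f i`, `i ≤ N`. Let `x i = cr (b O) (b (A i))` (signs of `f i`). Then `ip (b O) (x i) = 0`,
`ip (b l) (x i) = dt (b O) (b (A i)) (b l) > 0` (good data, `l ≠ w'`), and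
`dt (b O) (x i) (x (i+1)) > 0`: in `f i` we have `b v' = α b w + β b u` with `α > 0`, and
`(f (i+1)).v = (f i).v'` has the opposite sign in `f (i+1)`, so `x (i+1) = α cr (b (f i).w) (b O)`
(signs of `f i`); and `dt (b u) (cr (b u) (b v)) (cr (b w) (b u)) =
dt (b u) (b v) (b w) * ip (b u) (b u) > 0`. On the half plane `ip (b O) y = 0`, `ip (b l) y > 0` the
relation `dt (b O) y z > 0` is transitive: `ip (b l) y * dt (b O) x z =
ip (b l) z * dt (b O) x y + ip (b l) x * dt (b O) y z` for `x, y, z` orthogonal to `b O`. So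
`dt (b O) (x i) (x j) > 0` for `i < j`, the `x i` are pairwise not parallel, and
`ln a O (A i)` (the points orthogonal to `x i`) are different lines. -/
def DisStmt : Prop := ∀ (ι : Type) [Fintype ι] (a : ι → V), PI a →
  ∀ (N : ℕ) (f : ℕ → Dat ι), 2 * N + 5 < Fintype.card ι → 1 ≤ N →
  (∀ i < N, Col a (f i) (f (i + 1))) →
  ∀ i ≤ N, ∀ j ≤ N, i ≠ j → ln a (f 0).u (f i).v ≠ ln a (f 0).u (f j).v

/-- RUN. Uses BAS, GDW, COL, DIS, UNQ, FLP. Here `O = (f 0).u`, `G1 = (f 0).u'`, `A i = (f i).v`,
`B i = (f i).w'` for `i ≤ N`; the statement gives `IsRun` with `N - 1` in place of `N`. Proof.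
By COL `f i = (O, A i, B (i+1); G1, A (i+1), B i)` for `i < N` (and `f N` has `u = O`, `v = A N`,
`w' = B N`, `u' = G1`), so `ln O (A i) = {O, A i, B i}` for `i ≤ N` and
`ln (A i) (B (i+1)) = {A i, B (i+1), G1}` for `i < N` (GDW; `ln` of two points of a line is this
line, BAS). Let `fm i, g i, e i, gm i, h i, k i` be the data of `Col a (f i) (f (i+1))`.
BELOW: `fm i = (O, A (i+1), B i; Gm i, A i, B (i+1))` with `Gm i := (fm i).u'`, so
`ln (A (i+1)) (B i) = {A (i+1), B i, Gm i}`;
`rot (rot (fm i)) = (B i, O, A (i+1); B (i+1), Gm i, A i)`,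
`gm i = (A (i+1), B (i+1), Gm i; W i, B i, O)`,
`rot (rot (gm i)) = (Gm i, A (i+1), B (i+1); O, W i, B i)`. For `i + 1 < N` the sign vector of
`fm (i+1)` (that of `f (i+1)` flipped at `O`, i.e. that of `f i` flipped at `B (i+1), A (i+1), O`) is
that of `gm i` flipped at `B (i+1)`; it is good, so by FLP there is a step from `rot (rot (gm i))`
to `e' = (B (i+1), O, W i; *, Gm i, A (i+1))`, and by UNQ (same sign vector, same first wall)
`e' = rot (rot (fm (i+1))) = (B (i+1), O, A (i+2); B (i+2), Gm (i+1), A (i+1))`: so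
`Gm (i+1) = Gm i`. ABOVE: `g i = (B (i+1), G1, A (i+1); B (i+2), O, A i)` (for `i + 1 < N` or with
`(f (i+1)).w` in place of `B (i+2)`), `rot (rot (g i)) = (A (i+1), B (i+1), G1; A i, B (i+2), O)`,
`h i = (G1, A i, B (i+2); G2 i, A (i+1), B (i+1))`, so
`ln (A i) (B (i+2)) = {A i, B (i+2), G2 i}` for `i + 2 ≤ N`,
`k i = (B (i+2), G2 i, A (i+1); U i, G1, A i)`. For `i + 1 < N` the sign vector of `h (i+1)` (that of
`g (i+1)` flipped at `G1`) is that of `k i` flipped at `A (i+1)`; FLP gives a step from `k i` to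
`(A (i+1), U i, G1; *, B (i+2), G2 i)`, which by UNQ is
`rot (h (i+1)) = (A (i+1), B (i+3), G1; A (i+2), B (i+2), G2 (i+1))`: `G2 (i+1) = G2 i`.
DISTINCTNESS. The `A i, B i` lie on the lines `ln O (A i)`, which are different for different `i`
(DIS) and meet only in `O`. `O, G1 ∉ {A i, B i}` (`Good (f i)`), `Gm ∉` (`Good (fm i)`), `G2 ≠ A i`,
`A (i+1)`, `B (i+1)`, `B (i+2)` (`Good (h i)`). `O ≠ G1`, `O ≠ Gm`, `G1 ≠ G2`: `Good`. `G1 ≠ Gm`: else
the line through `G1` and `B 1` contains `A 0` and `A 2`, 4 points on a line of 3. `O ≠ G2`: else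
the line through `O` and `A 0` contains `B 0` and `B 2`. `G2 ≠ Gm`: else the line through `Gm` and
`A 1` contains `B 0` and `B 3` (`N ≥ 3`). -/
def RunStmt : Prop := ∀ (ι : Type) [Fintype ι] (a : ι → V), PI a →
  ∀ (N : ℕ) (f : ℕ → Dat ι), 2 * N + 5 < Fintype.card ι → 3 ≤ N →
  (∀ i < N, Col a (f i) (f (i + 1))) →
  ∃ Gm G1 G2 : ι, IsRun a (N - 1) (f 0).u Gm G1 G2 (fun i => (f i).v) (fun i => (f i).w')

end Pool.Agent.GTO
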