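import Pool.Agent.GTO.StmtsC

/-! Squad GTO (MP_122998_co): statements of the modules, part B (second stage, final count,
construction, frozen format). Paper: `GTO_paper.md`, sections E, F, I, J. -/

namespace Pool.Agent.GTO

open Finset
open scoped Classical

/-- singular zero of the cubic form -/
def Sg (c : Fin 10 → ℝ) (v : V) : Prop := v ≠ 0 ∧ cub c v = 0 ∧ grd c v = 0

/-- the group of the curve; `φ` is only used at nonsingular points -/
structure Grp (c : Fin 10 → ℝ) (G : Type) [AddCommGroup G] (φ : V → G) : Prop where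
  par : ∀ u v, Ns c u → Ns c v → (φ u = φ v ↔ cr u v = 0)
  col : ∀ u v w, Ns c u → Ns c v → Ns c w → cr u v ≠ 0 → cr v w ≠ 0 → cr w u ≠ 0 →
    (dt u v w = 0 ↔ φ u + φ v + φ w = 0)
  third : ∀ u v, Ns c u → Ns c v → cr u v ≠ 0 → ∃ w, Ns c w ∧ dt u v w = 0 ∧
    φ u + φ v + φ w = 0
  tangent : ∀ u, Ns c u → ∃ w, Ns c w ∧ ip (grd c u) w = 0 ∧ φ u + φ u + φ w = 0

/-- at most one singular point, and a line through it meets the curve in at most one more point -/
structure Sng (c : Fin 10 → ℝ) : Prop where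
  two : ∀ u v, Sg c u → Sg c v → cr u v = 0
  line : ∀ q u v, Sg c q → cub c u = 0 → cub c v = 0 → cr q u ≠ 0 → cr q v ≠ 0 → cr u v ≠ 0 →
    dt q u v ≠ 0

/-- GRP (helper49). `Helper49_GTO/Grp.lean`, `Tan.lean`; the line through a singular zero `q` and
two other zeros `u, v` would give a binary cubic form with a double zero and two other zeros. -/
def GrpStmt : Prop := ∀ c : Fin 10 → ℝ, NoLine c →
  (∃ (G : Type) (_ : AddCommGroup G) (φ : V → G), Grp c G φ) ∧ Sng c

/-- TNG (at most six tangents through a point). Uses BAS, BZ6. Proof. `v ↦ ip (grd c v) w` is a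
quadratic form `quad e` (write down `e`). If `e ≠ 0` use BZ6 (seven elements of `s` give
`p : Fin 7 → V`). If `e = 0` then `ip (grd c v) w = 0` for all `v`, hence
`cub c (v + t • w) = cub c v` (the expansion is `cub c v + t ip (grd c v) w + t² ip (grd c w) v +
t³ cub c w`; `ip (grd c w) v = 0` because `ip (grd c (v + w)) w - ip (grd c v) w - ip (grd c w) w
= 2 ip (grd c w) v`, and `3 cub c w = ip (grd c w) w = 0`). If `s` has two elements then one of
them, `i`, has `cr (p i) w ≠ 0` and `cub c (a • p i + b • w) = a ^ 3 * cub c (p i) = 0` for all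
`a, b` against `NoLine`. -/
def TngStmt : Prop := ∀ (c : Fin 10 → ℝ) (w : V), NoLine c → w ≠ 0 →
  ∀ (κ : Type) (s : Finset κ) (p : κ → V),
  (∀ i ∈ s, cub c (p i) = 0 ∧ ip (grd c (p i)) w = 0) →
  (∀ i ∈ s, ∀ j ∈ s, i ≠ j → cr (p i) (p j) ≠ 0) → s.card ≤ 6

/-- LN3 (at most three zeros on a line). Uses LNF. Four elements of `s` give `cub c = ip w * quad e`,
and then `cub c` vanishes on the plane orthogonal to `w`, which is spanned by two of the `p i`,
against `NoLine`. -/
def Ln3Stmt : Prop := ∀ (c : Fin 10 → ℝ) (w : V), NoLine c → w ≠ 0 →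
  ∀ (κ : Type) (s : Finset κ) (p : κ → V), (∀ i ∈ s, cub c (p i) = 0 ∧ ip w (p i) = 0) →
  (∀ i ∈ s, ∀ j ∈ s, i ≠ j → cr (p i) (p j) ≠ 0) → s.card ≤ 3

/-- SGL (Sylvester-Gallai). Uses BAS, MEL. Proof: by MEL the sum of `6 - 2 * ℓ.card` over the
lines is at least 6, so some line has at most 2 points, and every line has at least 2 (BAS). -/
def SglStmt : Prop := ∀ (ι : Type) [Fintype ι] (a : ι → V), PI a → Spn a →
  ∃ i j, i ≠ j ∧ ln a i j = {i, j}

/-- FX3 (at most three real flexes). Uses BAS, LN3, SGL. Proof. Suppose `4 ≤ T.card`. Let `a` be the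
family of the points `v` of the `g ∈ T` (index type: the elements of `T`); `PI a` by `Grp.par`. If
`Spn a` fails then all points are on one line (four zeros on a line, against LN3). If `Spn a`, SGL
gives `g ≠ h` in `T` with `ln a g h = {g, h}`. `k = -g-h ∈ T` is different from `g` and `h` (if
`-g-h = g` then `h = -g-g = g`, as `g+g+g = 0`). `Grp.col` (`φ` sum zero, pairwise non-parallel)
shows that the point of `k` is on the line: `k ∈ ln a g h`, a contradiction. -/
def Fx3Stmt : Prop := ∀ (c : Fin 10 → ℝ) (G : Type) [AddCommGroup G] (φ : V → G), NoLine c →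
  Grp c G φ → ∀ T : Finset G, (∀ g ∈ T, ∀ h ∈ T, -g - h ∈ T) → (∀ g ∈ T, g + g + g = 0) →
  (∀ g ∈ T, ∃ v, Ns c v ∧ φ v = g) → T.card ≤ 3

/-- TGV. Uses BAS. Proof: `Grp.tangent` gives `w` with `ip (grd c u) w = 0` and `φ w = φ v`, so
`cr w v = 0` (`Grp.par`), `w ≠ 0`, `v = t • w`. -/
def TgvStmt : Prop := ∀ (c : Fin 10 → ℝ) (G : Type) [AddCommGroup G] (φ : V → G),
  Grp c G φ → ∀ u v, Ns c u → Ns c v → φ u + φ u + φ v = 0 → ip (grd c u) v = 0

/-- a configuration and a coset -/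
structure Cnf {ι : Type} [Fintype ι] (a : ι → V) (c : Fin 10 → ℝ) (G : Type) [AddCommGroup G]
    (φ : V → G) (H : Finset G) : Prop where
  pi : PI a
  nl : NoLine c
  grp : Grp c G φ
  sng : Sng c
  clo : ∀ g ∈ H, ∀ h ∈ H, -g - h ∈ H
  pts : ∀ h ∈ H, ∃ v, Ns c v ∧ φ v = h

section
variable {ι : Type} [Fintype ι] (a : ι → V) (c : Fin 10 → ℝ) {G : Type} [AddCommGroup G]
  (φ : V → G) (H : Finset G)

/-- the points of the configuration in the coset -/
noncomputable def QQ : Finset ι := univ.filter fun i => Ns c (a i) ∧ φ (a i) ∈ H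

/-- the missing elements of the coset -/
noncomputable def MM : Finset G := H.filter fun h => ∀ i ∈ QQ a c φ H, φ (a i) ≠ h

/-- pairs whose third point is missing -/
noncomputable def MISo : Finset (ι × ι) :=
  univ.filter fun p => p.1 ∈ QQ a c φ H ∧ p.2 ∈ QQ a c φ H ∧ p.1 ≠ p.2 ∧
    -φ (a p.1) - φ (a p.2) ∈ MM a c φ H

/-- pairs (point, its tangential point) -/
noncomputable def TANo : Finset (ι × ι) :=
  univ.filter fun p => p.1 ∈ QQ a c φ H ∧ p.2 ∈ QQ a c φ H ∧ p.1 ≠ p.2 ∧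
    φ (a p.1) + φ (a p.1) + φ (a p.2) = 0

/-- the same pairs in the other order -/
noncomputable def TANs : Finset (ι × ι) :=
  univ.filter fun p => p.1 ∈ QQ a c φ H ∧ p.2 ∈ QQ a c φ H ∧ p.1 ≠ p.2 ∧
    φ (a p.2) + φ (a p.2) + φ (a p.1) = 0

end

/-- CT6 (counts in a configuration). Uses BAS, TNG, LN3, TGV. Proof. (1) `μ = φ v`, `Ns c v`; the `i`
in the set have `ip (grd c (a i)) v = 0` (TGV): TNG with `w = v`. (2) TNG. (3) The points `a i` of the
set and `w` are pairwise non-parallel zeros of `c` on the line `cr q w`: LN3. (4) `φ ∘ a` is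
injective on `QQ` (`Grp.par`, `PI`). (5) If `k ∈ QQ` were a third point of the line of `i, j` then
`Grp.col`. -/
def Ct6Stmt : Prop := ∀ (ι : Type) [Fintype ι] (a : ι → V) (c : Fin 10 → ℝ) (G : Type)
  [AddCommGroup G] (φ : V → G) (H : Finset G), Cnf a c G φ H →
  (∀ μ ∈ H, ((QQ a c φ H).filter fun i => φ (a i) + φ (a i) + μ = 0).card ≤ 6) ∧
  (∀ w : V, w ≠ 0 → ((QQ a c φ H).filter fun i => ip (grd c (a i)) w = 0).card ≤ 6) ∧
  (∀ w q : V, cub c w = 0 → cr q w ≠ 0 → (∀ i ∈ QQ a c φ H, cr (a i) w ≠ 0) →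
    ((QQ a c φ H).filter fun i => dt q w (a i) = 0).card ≤ 2) ∧
  (QQ a c φ H).card + (MM a c φ H).card = H.card ∧
  (∀ i ∈ QQ a c φ H, ∀ j ∈ QQ a c φ H, ∀ k ∈ QQ a c φ H, i ≠ j → j ≠ k → k ≠ i →
    (k ∈ ln a i j ↔ φ (a i) + φ (a j) + φ (a k) = 0))

/-- OFF (a further point on a line with two points of `QQ`). Uses BAS. Proof. `i, j ∈ QQ`,
`q ∉ QQ` on their line. If `a q` is a nonsingular zero then `φ (a q) = -φ (a i) - φ (a j) ∈ H`
(`Grp.col`, `clo`), so `q ∈ QQ`. If it is a singular zero: `Sng.line`. -/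
def OffStmt : Prop := ∀ (ι : Type) [Fintype ι] (a : ι → V) (c : Fin 10 → ℝ) (G : Type)
  [AddCommGroup G] (φ : V → G) (H : Finset G), Cnf a c G φ H →
  ∀ i ∈ QQ a c φ H, ∀ j ∈ QQ a c φ H, i ≠ j → ∀ q, q ∉ QQ a c φ H → q ∈ ln a i j →
  cub c (a q) ≠ 0

/-- QZB (an outside point has few lines with exactly three points). Uses BAS, CT6, OFF, TGV. Proof.
Let `ln a q i = {q, i, k}`. (1) `k ∉ QQ`: `i` is determined by `k`, at most
`n - |QQ| - 1` such `i`. (2) `k ∈ QQ`: `cub c (a q) ≠ 0` (OFF). `Grp.third` for `a i, a k` gives `w`,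
`Ns c w`, on the line, `φ w = -φ (a i) - φ (a k) ∈ H`. If `φ w ∈ MM`: choose for each `μ ∈ MM` one point
`w μ` (`pts`), parallel to `w`; `dt (a q) (w μ) (a i) = 0` and CT6 (3) give at most `2 |MM|` such
`i`. Otherwise `φ w = φ (a j)`, `j ∈ QQ`. If `j ≠ i, k` then `j` is a fourth point of the line. If
`j = i` then `φ (a i) + φ (a i) + φ (a k) = 0`, so `ip (grd c (a i)) (a k) = 0` (TGV), and
`ip (grd c (a i)) (a i) = 3 cub c (a i) = 0`, so `ip (grd c (a i)) (a q) = 0` (`a q` is a combination):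
at most 6 such `i` (CT6 (2)). If `j = k` the same with `i, k` exchanged: at most 6 such `k`, each
determines `i`. -/
def QzbStmt : Prop := ∀ (ι : Type) [Fintype ι] (a : ι → V) (c : Fin 10 → ℝ) (G : Type)
  [AddCommGroup G] (φ : V → G) (H : Finset G), Cnf a c G φ H → ∀ q, q ∉ QQ a c φ H →
  ((QQ a c φ H).filter fun i => (ln a q i).card = 3).card ≤
    (Fintype.card ι - (QQ a c φ H).card - 1) + 2 * (MM a c φ H).card + 12

/-- MIS. Uses CT6. Proof. For `μ ∈ MM` and `i ∈ QQ` the element `-μ - φ (a i) ∈ H` is in `MM` (at most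
`|MM|` of the `i`) or it is `φ (a j)`, `j ∈ QQ`; `j = i` for at most 6 of the `i` (CT6 (1)). The
pairs `(i, j)` for different `μ` are different. -/
def MisStmt : Prop := ∀ (ι : Type) [Fintype ι] (a : ι → V) (c : Fin 10 → ℝ) (G : Type)
  [AddCommGroup G] (φ : V → G) (H : Finset G), Cnf a c G φ H →
  (MM a c φ H).card * (QQ a c φ H).card ≤
    (MISo a c φ H).card + (MM a c φ H).card * ((MM a c φ H).card + 6)

/-- TAN. Uses CT6, FX3. Proof. For `i ∈ QQ` the element `-φ (a i) - φ (a i) ∈ H` is in `MM` (for each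
`μ ∈ MM` at most 6 of the `i`, CT6 (1)) or it is `φ (a j)`, `j ∈ QQ`; `j = i` iff
`3 φ (a i) = 0`: at most 3 of the `i`, by FX3 for `T = H.filter (fun g => g + g + g = 0)`. -/
def TanStmt : Prop := ∀ (ι : Type) [Fintype ι] (a : ι → V) (c : Fin 10 → ℝ) (G : Type)
  [AddCommGroup G] (φ : V → G) (H : Finset G), Cnf a c G φ H →
  (QQ a c φ H).card ≤ (TANo a c φ H).card + 3 + 6 * (MM a c φ H).card

/-- DIJ. Uses nothing. Proof. `MISo` against `TANo`: `-φ (a i) - φ (a j) = φ (a i)` is not in `MM`.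
`TANo` against `TANs`: `2 x + y = 0 = 2 y + x` gives `y = x`, so `i = j` (`Grp.par`, `PI`). The
exchange of the components is a bijection from `TANo` to `TANs`. -/
def DijStmt : Prop := ∀ (ι : Type) [Fintype ι] (a : ι → V) (c : Fin 10 → ℝ) (G : Type)
  [AddCommGroup G] (φ : V → G) (H : Finset G), Cnf a c G φ H →
  Disjoint (MISo a c φ H) (TANo a c φ H) ∧ Disjoint (MISo a c φ H) (TANs a c φ H) ∧
  Disjoint (TANo a c φ H) (TANs a c φ H) ∧ (TANs a c φ H).card = (TANo a c φ H).card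

/-- LCZ (pairs of `MISo`, `TANo`, `TANs` on a line with exactly three points). Uses BAS, CT6, OFF,
TGV. Proof. Let `ln a i j = {i, j, k}`. (1) `k ∉ QQ`: otherwise `φ (a i) + φ (a j) + φ (a k) = 0`
(CT6 (5)), so `-φ (a i) - φ (a j) = φ (a k) ∉ MM`; and for `TANo` it would be `φ (a k) = φ (a i)`. So
`cub c (a k) ≠ 0` (OFF). (2) Fix `k ∉ QQ` with `cub c (a k) ≠ 0`. `MISo`: for
`μ = -φ (a i) - φ (a j) ∈ MM` let `w` be a point with `φ w = μ` (`pts`; chosen once for each `μ`);
it is on the line of `i, j` (`Grp.col`; `w` is not parallel to `a i`, `a j` as `μ ∈ MM`), so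
`dt (a k) w (a i) = 0 = dt (a k) w (a j)`: `i, j` are in a set of at most 2 elements (CT6 (3)), at most
2 ordered pairs for each `μ`. `TANo`: `ip (grd c (a i)) (a k) = 0` as in QZB, at most 6 of the `i`
(CT6 (2)), and `j` is determined by `i`. `TANs`: the same. -/
def LczStmt : Prop := ∀ (ι : Type) [Fintype ι] (a : ι → V) (c : Fin 10 → ℝ) (G : Type)
  [AddCommGroup G] (φ : V → G) (H : Finset G), Cnf a c G φ H →
  ((MISo a c φ H ∪ TANo a c φ H ∪ TANs a c φ H).filter fun p =>
    (ln a p.1 p.2).card = 3).card ≤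
    (Fintype.card ι - (QQ a c φ H).card) * (2 * (MM a c φ H).card + 12)

/-- FIN (final count). Uses BAS, QZB, MIS, TAN, DIJ, LCZ. Proof. `n = Fintype.card ι`,
`z = n - |QQ|`, `m = |MM|`. The pairs `(q, i)`, `q ∉ QQ`, `i ∈ QQ`, with `(ln a q i).card ≠ 3` are at
least `z (|QQ| - (z - 1) - 2 m - 12)` (QZB), the reversed pairs are as many, and the pairs of
`MISo ∪ TANo ∪ TANs` on lines without exactly three points are at least
`m |QQ| - m (m + 6) + 2 (|QQ| - 3 - 6 m) - z (2 m + 12)`. All these are different pairs counted by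
`D2`. The sum minus `2 (n - 3)` is `2 z (n - 2 z - 3 m - 18) + m (n - z - m - 18) ≥ 0`. -/
def FinStmt : Prop := ∀ (ι : Type) [Fintype ι] (a : ι → V) (c : Fin 10 → ℝ) (G : Type)
  [AddCommGroup G] (φ : V → G) (H : Finset G), Cnf a c G φ H → 120000 ≤ Fintype.card ι →
  Fintype.card ι ≤ (QQ a c φ H).card + 685 → (MM a c φ H).card ≤ 458 →
  2 * Fintype.card ι ≤ D2 a + 6

/-- LOW. Uses BAS. Proof: for `q` off the cubic and `p` on it: the line does not have 3 points (each
such pair is counted twice by `D2`, as `(p, q)` and `(q, p)`), or it is `{p, q, k}` with `k` off the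
cubic (at most `y - 1` for each `q`, as `k` determines `p`), or the pair is counted by `TT`. So
`x y ≤ D2 / 2 + y (y - 1) + TT`. -/
def LowStmt : Prop := ∀ (ι : Type) [Fintype ι] (a : ι → V) (c : Fin 10 → ℝ), PI a →
  2 * ((Zc a c).card * (Fintype.card ι - (Zc a c).card)) ≤ 2 * TT a c + D2 a +
    2 * ((Fintype.card ι - (Zc a c).card) * (Fintype.card ι - (Zc a c).card - 1))

/-- YBD (at most 226 points off the cubic). Uses LOW. Proof. With `y = n - x`: LOW gives
`2 (n - y) y ≤ 225 D2 + 2 y (y - 1) ≤ 450 n + 2 y (y - 1)`, i.e. `y (n - 2 y + 1) ≤ 225 n`. If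
`y ≥ 227` then from `(y - 227) (n - 2 y - 460) ≥ 0` we get
`y (n - 2 y) ≥ 460 y + 227 (n - 2 y) - 104420 = 227 n + 6 y - 104420 > 225 n`, a contradiction. -/
def YbdStmt : Prop := ∀ (ι : Type) [Fintype ι] (a : ι → V) (c : Fin 10 → ℝ), PI a →
  120000 ≤ Fintype.card ι → D2 a ≤ 2 * Fintype.card ι → 4 * TT a c ≤ 448 * D2 a →
  2 * (Fintype.card ι - (Zc a c).card) + 460 ≤ Fintype.card ι →
  Fintype.card ι ≤ (Zc a c).card + 226

/-- the points of the configuration in the group -/
noncomputable def SS {ι : Type} [Fintype ι] (a : ι → V) (c : Fin 10 → ℝ) {G : Type}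
    (φ : V → G) : Finset G := (univ.filter fun i => Ns c (a i)).image fun i => φ (a i)

/-- NEA (the set in the group is almost closed). Uses BAS. Proof. At most one point of the
configuration is a singular zero (`Sng.two`), `φ ∘ a` is injective on the nonsingular ones. Let
`i, j` be nonsingular with `-φ (a i) - φ (a j) ∉ SS`. (1) `i = j`: at most `|SS|` pairs. (2) `i ≠ j`,
`(ln a i j).card ≠ 3`: at most `D2 a` pairs. (3) `ln a i j = {i, j, k}`: `k ∈ Zc a c` is impossible
(nonsingular: `Grp.col`; singular: `Sng.line`); so `(i, k)` is a pair counted by `TT a c` and it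
determines `j`. In all at most `|SS| + D2 a + TT a c ≤ |SS| + 113 * D2 a ≤ |SS| + 226 n ≤ 229 |SS|`, as
`|SS| ≥ n - 227`. -/
def NeaStmt : Prop := ∀ (ι : Type) [Fintype ι] (a : ι → V) (c : Fin 10 → ℝ) (G : Type)
  [AddCommGroup G] (φ : V → G), PI a → Grp c G φ → Sng c → 120000 ≤ Fintype.card ι →
  D2 a ≤ 2 * Fintype.card ι → 4 * TT a c ≤ 448 * D2 a → Fintype.card ι ≤ (Zc a c).card + 226 →
  Fintype.card ι ≤ (SS a c φ).card + 227 ∧
  ((SS a c φ ×ˢ SS a c φ).filter fun p => -p.1 - p.2 ∉ SS a c φ).card ≤ 229 * (SS a c φ).card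

/-- STC (structure). Uses NEA and `Helper20_GTO/NCS.lean` (`Pool.Agent.GTO.H20.ncs`, `K = 229`,
`S = SS a c φ`). Proof. `|QQ| ≥ |S ∩ H| ≥ |S| - 458 ≥ n - 685`, `MM ⊆ H \ S`. `pts`: the set of the `φ v`,
`Ns c v`, is closed under `(g, h) ↦ -g-h` (`Grp.third` if the points are not parallel, otherwise
`g = h` and `Grp.tangent`), and `x + x' - x'' = -(-x - x') - x''`. -/
def StcStmt : Prop := ∀ (ι : Type) [Fintype ι] (a : ι → V) (c : Fin 10 → ℝ) (G : Type)
  [AddCommGroup G] (φ : V → G), PI a → NoLine c → Grp c G φ → Sng c → 120000 ≤ Fintype.card ι →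
  D2 a ≤ 2 * Fintype.card ι → 4 * TT a c ≤ 448 * D2 a → Fintype.card ι ≤ (Zc a c).card + 226 →
  ∃ H : Finset G, Cnf a c G φ H ∧ Fintype.card ι ≤ (QQ a c φ H).card + 685 ∧
    (MM a c φ H).card ≤ 458

/-- GMN (main theorem). Uses ST1, UPP, YBD, GRP, STC, FIN. Proof. If `D2 a > 2 n` nothing is to be
proved. If not `Spn a` then every `ln a i j` is the whole set and `D2 a = n (n - 1)`. Otherwise
chain the statements. -/
def GmnStmt : Prop := ∀ (ι : Type) [Fintype ι] (a : ι → V), PI a → 120000 ≤ Fintype.card ι →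
  2 * Fintype.card ι ≤ D2 a + 6

/-- the lines with exactly three points, in the frozen format of S07261 -/
def T3 (P : Finset (EuclideanSpace ℝ (Fin 2))) : Set (Finset (EuclideanSpace ℝ (Fin 2))) :=
  {S : Finset (EuclideanSpace ℝ (Fin 2)) | S ⊆ P ∧ S.card = 3 ∧
    Collinear ℝ (S : Set (EuclideanSpace ℝ (Fin 2))) ∧
    ∀ p ∈ P, Collinear ℝ (insert p (S : Set (EuclideanSpace ℝ (Fin 2)))) → p ∈ S}

/-- homogeneous coordinates -/
def hom (p : EuclideanSpace ℝ (Fin 2)) : V := ![p 0, p 1, 1]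

/-- CLD (collinearity as a determinant). Proof. `cr (hom p) (hom q) ≠ 0` for `p ≠ q` (its components
contain the differences of the coordinates). Three points `p ≠ q`, `r`: `Collinear ℝ {p, q, r}` iff
`r - p` is a multiple of `q - p` (`collinear_iff_of_mem`) iff `dt = 0`. -/
def CldStmt : Prop :=
  (∀ p q : EuclideanSpace ℝ (Fin 2), p ≠ q → cr (hom p) (hom q) ≠ 0) ∧
  (∀ p q r : EuclideanSpace ℝ (Fin 2), Collinear ℝ {p, q, r} ↔ dt (hom p) (hom q) (hom r) = 0)

/-- FRM (counting in the frozen format). Uses BAS, CLD. Proof. The ordered pairs of different points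
of `P` are the pairs counted by `D2` and the pairs with `(ln a p q).card = 3`; for the latter
`S = ln a p q` (as a set of points) is an element of `T3 P`, and each `S ∈ T3 P` is obtained from
exactly its 6 ordered pairs of different elements (`ln a p q = S` for `p ≠ q` in `S`: a point `r` of
the line is collinear with all of `S`, so it is in `S`). `T3 P` is finite. -/
def FrmStmt : Prop := ∀ P : Finset (EuclideanSpace ℝ (Fin 2)),
  PI (fun p : {x // x ∈ P} => hom p.1) ∧
  6 * (T3 P).ncard + D2 (fun p : {x // x ∈ P} => hom p.1) = P.card * (P.card - 1)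

/-- ZS3 (zero sum triples). Proof. Ordered triples with sum 0: `n ^ 2`; with two given components
equal: `n`; with all components equal: the number `τ` of `x` with `3 x = 0`, which is 3 if `3 ∣ n` and
1 otherwise. So the number of 3-subsets is `(n ^ 2 - 3 n + 2 τ) / 6`; if `3 ∣ n` then
`6 ∣ n (n - 3)` and it is `n (n - 3) / 6 + 1`, otherwise `n (n - 3)` is 4 mod 6. -/
def Zs3Stmt : Prop := ∀ (n : ℕ) [NeZero n], 3 ≤ n →
  ((univ.powersetCard 3).filter fun S : Finset (ZMod n) => ∑ x ∈ S, x = 0).card =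
    1 + n * (n - 3) / 6

/-- CRV (the points on the curve). Uses CLD. Proof. For real `x` let `v x = (cos x, sin x, sin 3x)`.
Up to sign `det (v x, v y, v z) = 4 sin (x-y) sin (y-z) sin (z-x) sin (x+y+z)` (check: expand
`sin 3x = 3 sin x - 4 sin³ x`), and `v (x + π) = - v x`. Put `x_j = π j / n` for
`j = 0, .., n-1` (`ZMod.val`), `θ = π / (2 n)`, `ℓ x = sin (x - θ) = sin x cos θ - cos x sin θ`, which is
not zero at the `x_j`. `f j = (cos x_j / ℓ x_j, sin 3 x_j / ℓ x_j)`; the determinant of three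
`hom (f j)` is a nonzero multiple (`± cos θ / ∏ ℓ`, `cos θ ≠ 0`) of `det (v, v, v)`; the points are
different because `cr (v x) (v y)` has the component `sin (y - x) ≠ 0`. For pairwise different
`i, j, k` the determinant is zero iff `sin (x_i + x_j + x_k) = 0` iff `n ∣ i + j + k`. -/
def CrvStmt : Prop := ∀ (n : ℕ) [NeZero n], 3 ≤ n → ∃ f : ZMod n → EuclideanSpace ℝ (Fin 2),
  Function.Injective f ∧ ∀ i j k, i ≠ j → j ≠ k → k ≠ i →
    (Collinear ℝ {f i, f j, f k} ↔ i + j + k = 0)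

/-- EXI (the construction). Uses CRV, ZS3. Proof. `P` is the image of `f`. `T3 P` is the image of
the set of the 3-subsets `{i, j, k}` with sum 0 (a fourth point `l` collinear with them would have
`i + j + l = 0`, so `l = k`). -/
def ExiStmt : Prop := ∀ n : ℕ, 3 ≤ n → ∃ P : Finset (EuclideanSpace ℝ (Fin 2)), P.card = n ∧
  (T3 P).ncard = 1 + n * (n - 3) / 6

/-- ORC (the theorem in the frozen format). Uses GMN, FRM, EXI. Proof: `6 t = n (n - 1) - D2 ≤
n (n - 1) - 2 n + 6`, so `t ≤ (n (n - 3) + 6) / 6 = 1 + n (n - 3) / 6`. -/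
def OrcStmt : Prop := ∀ n : ℕ, 120000 ≤ n →
  (∃ P : Finset (EuclideanSpace ℝ (Fin 2)), P.card = n ∧ (T3 P).ncard = 1 + n * (n - 3) / 6) ∧
  ∀ P : Finset (EuclideanSpace ℝ (Fin 2)), P.card = n → (T3 P).ncard ≤ 1 + n * (n - 3) / 6

end Pool.Agent.GTO
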