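import Pool.Agent.GTO.StmtsB

/-! Squad GTO (MP_122998_co): statements of stage 1 and of part B with the threshold 30000. The
proofs are the ones of `StmtsC.lean` and `StmtsB.lean` with other numbers. -/

namespace Pool.Agent.GTO.B3

open Finset
open scoped Classical

/-- ST1 (stage 1: one cubic contains more than half of the points), threshold 30000. -/
def St1Stmt : Prop := ∀ (ι : Type) [Fintype ι] (a : ι → V), PI a → Spn a →
  30000 ≤ Fintype.card ι → D2 a ≤ 2 * Fintype.card ι →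
  ∃ c : Fin 10 → ℝ, NoLine c ∧
    2 * (Fintype.card ι - (Zc a c).card) + 460 ≤ Fintype.card ι

/-- FIN (final count). Uses BAS, QZB, MIS, TAN, DIJ, LCZ. -/
def FinStmt : Prop := ∀ (ι : Type) [Fintype ι] (a : ι → V) (c : Fin 10 → ℝ) (G : Type)
  [AddCommGroup G] (φ : V → G) (H : Finset G), Cnf a c G φ H → 30000 ≤ Fintype.card ι →
  Fintype.card ι ≤ (QQ a c φ H).card + 696 → (MM a c φ H).card ≤ 460 →
  2 * Fintype.card ι ≤ D2 a + 6

/-- YBD (at most 235 points off the cubic). Uses LOW. Proof. With `y = n - x`: LOW gives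
`y (n - 2 y + 1) ≤ 225 n`. If `y ≥ 236` then from `(y - 236) (n - 2 y - 460) ≥ 0` we get
`y (n - 2 y) + y ≥ 236 n - 11 y - 108560 > 225 n`, a contradiction. -/
def YbdStmt : Prop := ∀ (ι : Type) [Fintype ι] (a : ι → V) (c : Fin 10 → ℝ), PI a →
  30000 ≤ Fintype.card ι → D2 a ≤ 2 * Fintype.card ι → 4 * TT a c ≤ 448 * D2 a →
  2 * (Fintype.card ι - (Zc a c).card) + 460 ≤ Fintype.card ι →
  Fintype.card ι ≤ (Zc a c).card + 235

/-- NEA (the set in the group is almost closed). Uses BAS. At most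
`|SS| + D2 a + TT a c ≤ |SS| + 226 n ≤ 230 |SS|`, as `|SS| ≥ n - 236`. -/
def NeaStmt : Prop := ∀ (ι : Type) [Fintype ι] (a : ι → V) (c : Fin 10 → ℝ) (G : Type)
  [AddCommGroup G] (φ : V → G), PI a → Grp c G φ → Sng c → 30000 ≤ Fintype.card ι →
  D2 a ≤ 2 * Fintype.card ι → 4 * TT a c ≤ 448 * D2 a → Fintype.card ι ≤ (Zc a c).card + 235 →
  Fintype.card ι ≤ (SS a c φ).card + 236 ∧
  ((SS a c φ ×ˢ SS a c φ).filter fun p => -p.1 - p.2 ∉ SS a c φ).card ≤ 230 * (SS a c φ).card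

/-- STC (structure). Uses NEA and `Helper20_GTO/NCS.lean` with `K = 230`. -/
def StcStmt : Prop := ∀ (ι : Type) [Fintype ι] (a : ι → V) (c : Fin 10 → ℝ) (G : Type)
  [AddCommGroup G] (φ : V → G), PI a → NoLine c → Grp c G φ → Sng c → 30000 ≤ Fintype.card ι →
  D2 a ≤ 2 * Fintype.card ι → 4 * TT a c ≤ 448 * D2 a → Fintype.card ι ≤ (Zc a c).card + 235 →
  ∃ H : Finset G, Cnf a c G φ H ∧ Fintype.card ι ≤ (QQ a c φ H).card + 696 ∧
    (MM a c φ H).card ≤ 460

/-- GMN (main theorem). Uses ST1 (of this file), UPP, YBD, GRP, STC, FIN. -/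
def GmnStmt : Prop := ∀ (ι : Type) [Fintype ι] (a : ι → V), PI a → 30000 ≤ Fintype.card ι →
  2 * Fintype.card ι ≤ D2 a + 6

/-- ORC (the theorem in the frozen format). Uses GMN, FRM, EXI. -/
def OrcStmt : Prop := ∀ n : ℕ, 30000 ≤ n →
  (∃ P : Finset (EuclideanSpace ℝ (Fin 2)), P.card = n ∧ (T3 P).ncard = 1 + n * (n - 3) / 6) ∧
  ∀ P : Finset (EuclideanSpace ℝ (Fin 2)), P.card = n → (T3 P).ncard ≤ 1 + n * (n - 3) / 6

end Pool.Agent.GTO.B3
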