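import Pool.Agent.GTO.StmtsA

/-! Squad GTO (MP_122998_co): statements of the modules, parts C and D (cubics, first stage). -/

namespace Pool.Agent.GTO

open Finset
open scoped Classical

/-- LNF (forms vanishing on a line). Proof. Take `u = p 0`, `v = p 1` (a basis of the plane `w⊥`).
The other points are `s u + t v` with `s, t ≠ 0`. (cubic) `cub c (s u + t v)` is a binary cubic form
in `s, t` which vanishes at `(1,0), (0,1)` and two more non-proportional pairs with `s, t ≠ 0`: it
is `s t (α s + β t)` and `α s + β t` has two non-proportional zeros, so it is zero; so `cub c`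
vanishes on the plane. Then `w 0 ≠ 0` or `w 1 ≠ 0` or `w 2 ≠ 0`; if `w 2 ≠ 0`, put
`z = (ip w v - w 0 x - w 1 y) / w 2` (binomial expansion): `cub c v = ip w v * quad e v + g x y` with
a binary cubic form `g`, which vanishes identically as `(x, y, -(w 0 x + w 1 y)/w 2)` lies in the
plane. The other cases by symmetry. (quad), (linear) the same. -/
def LnfStmt : Prop :=
  (∀ (c : Fin 10 → ℝ) (w : V) (p : Fin 4 → V), w ≠ 0 → (∀ i, ip w (p i) = 0 ∧ cub c (p i) = 0) →
    (∀ i j, i ≠ j → cr (p i) (p j) ≠ 0) → ∃ e : Fin 6 → ℝ, ∀ v, cub c v = ip w v * quad e v) ∧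
  (∀ (e : Fin 6 → ℝ) (w : V) (p : Fin 3 → V), w ≠ 0 → (∀ i, ip w (p i) = 0 ∧ quad e (p i) = 0) →
    (∀ i j, i ≠ j → cr (p i) (p j) ≠ 0) → ∃ m : V, ∀ v, quad e v = ip w v * ip m v) ∧
  (∀ (m w : V) (p : Fin 2 → V), w ≠ 0 → (∀ i, ip w (p i) = 0 ∧ ip m (p i) = 0) →
    cr (p 0) (p 1) ≠ 0 → ∃ t : ℝ, m = t • w) ∧
  (∀ (c : Fin 10 → ℝ), (∀ v, cub c v = 0) → c = 0) ∧
  (∀ (e : Fin 6 → ℝ), (∀ v, quad e v = 0) → e = 0) ∧
  (∀ (w : V) (e : Fin 6 → ℝ), ∃ c : Fin 10 → ℝ, ∀ v, cub c v = ip w v * quad e v) ∧
  (∀ (w m : V), ∃ e : Fin 6 → ℝ, ∀ v, quad e v = ip w v * ip m v)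

/-- CHA (Chasles, Cayley-Bacharach for two triples of lines). Uses BAS, LNF. Proof. The line `X 0`
carries the three points `P 0 j`. `K = Y 0 * Y 1 * Y 2` (product of the linear forms) is a cubic form
vanishing at the `P 0 j`, and nonzero at some vector `q` of the plane `X 0⊥` which is not parallel to
the `P 0 j` (each `Y j` vanishes on this plane only at multiples of `P 0 j`, as `X 0, Y j` are
not parallel; the vectors `P 0 0 + t P 0 1` with `t` large will do). Choose `t` with
`(cub c - t K) q = 0`: this cubic form vanishes at `P 0 0, P 0 1, P 0 2, q`, so it is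
`ip (X 0) v * quad e v` (LNF). The points `P 1 j` are not on `X 0` (else `P 1 j` and `P 0 j` both lie
on `X 0` and on `Y j`, which are not parallel, so they are parallel); so `quad e` vanishes at
`P 1 0, P 1 1, P 1 2`, all on `X 1`: `quad e v = ip (X 1) v * ip m v`. The points `P 2 0, P 2 1` are
not on `X 0`, `X 1`, so `ip m` vanishes at them and `m = s X 2`. Hence
`cub c = t Y 0 Y 1 Y 2 + s X 0 X 1 X 2` vanishes at `P 2 2`. -/
def ChaStmt : Prop := ∀ (X Y : Fin 3 → V) (P : Fin 3 → Fin 3 → V) (c : Fin 10 → ℝ),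
  (∀ i j, ip (X i) (P i j) = 0 ∧ ip (Y j) (P i j) = 0) → (∀ i j, cr (X i) (Y j) ≠ 0) →
  (∀ i j k l, (i, j) ≠ (k, l) → cr (P i j) (P k l) ≠ 0) →
  (∀ i j, (i, j) ≠ (2, 2) → cub c (P i j) = 0) → cub c (P 2 2) = 0

/-- CUB (the cubic of a run). Uses BAS, CHA. Proof. There is `c ≠ 0` vanishing at the nine vectors of
`Gm, O, G1, G2, A 0, A 1, A 2, B 1, B 2` (ten unknowns, nine linear equations). Windows:
`W' i` (for `i + 1 ≤ N`): the nine points `Gm, O, G1, A i, A (i+1), A (i+2), B i, B (i+1), B (i+2)`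
with the lines X: `{Gm, A (i+1), B i}`, `{O, A (i+2), B (i+2)}`, `{G1, A i, B (i+1)}` and
Y: `{Gm, A (i+2), B (i+1)}`, `{O, A i, B i}`, `{G1, A (i+1), B (i+2)}`: each X line and each Y line
meet in exactly one of the nine points. `W i` (for `i + 2 ≤ N`): the nine points `O, G1, G2,
A i, A (i+1), A (i+2), B (i+1), B (i+2), B (i+3)` with X: `{O, A (i+1), B (i+1)}`,
`{G1, A (i+2), B (i+3)}`, `{G2, A i, B (i+2)}` and Y: `{O, A (i+2), B (i+2)}`, `{G1, A i, B (i+1)}`,
`{G2, A (i+1), B (i+3)}`. By CHA a cubic through eight of the nine points of a window passes through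
the ninth (the line vectors are the `cr` of two of the points; an X line and a Y line are not
parallel, because the six lines have exactly three points of the configuration and are different).
`W' 0` gives `B 0`; then for `i = 0, 1, ..`: `W i` gives `B (i+3)`, `W' (i+1)` gives `A (i+3)`, up to
`B (N+1)`, `A (N+1)`. -/
def CubStmt : Prop := ∀ (ι : Type) [Fintype ι] (a : ι → V), PI a →
  ∀ (N : ℕ) (O Gm G1 G2 : ι) (A B : ℕ → ι), IsRun a N O Gm G1 G2 A B → 2 ≤ N →
  ∃ c : Fin 10 → ℝ, c ≠ 0 ∧ cub c (a O) = 0 ∧ cub c (a Gm) = 0 ∧ cub c (a G1) = 0 ∧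
    cub c (a G2) = 0 ∧ ∀ i ≤ N + 1, cub c (a (A i)) = 0 ∧ cub c (a (B i)) = 0

/-- BZ9 (Bezout, cubic and cubic). Proof. By a linear change of coordinates the ten points are
affine, `(x, y, 1)`, and different. Let `f, g` be the dehomogenised polynomials (total degree `≤ 3`)
in `ℝ[X][Y]`. `f` is irreducible: a factorisation into two nonconstant factors has a factor of
total degree 1 (degrees add and the total degree of `f` is 3, as otherwise the line at infinity is
contained in the curve), i.e. a line on which `cub c` vanishes, against `NoLine`. `f` does not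
divide `g`: the quotient would be a constant `t`, `c' = t • c`. By `BezStmt` of
`Pool/Agent/Helper38_LDP/Stmts.lean` (proved: `Pool.Agent.LDP.H46.bez` from DIM, EXA, MUL, see
`Pool/Agent/Results/MP_366d03_ag/LargeDegreePoints.lean`; `ρ = 1`, `V 1 ℝ 3 3` is the space of
polynomials of total degree `≤ 3`) the dimension of `ℝ[X][Y] / (f, g)` is at most 9; evaluation at
ten different common zeros is onto `ℝ^10`, a contradiction. (Any other proof is welcome, e.g. by
counting the dimensions of the forms of degree 9: 55 - 46 = 9 < 10.) -/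
def Bz9Stmt : Prop := ∀ (c c' : Fin 10 → ℝ) (p : Fin 10 → V), NoLine c → ¬ Mul c c' →
  (∀ i j, i ≠ j → cr (p i) (p j) ≠ 0) → ∃ i, cub c (p i) ≠ 0 ∨ cub c' (p i) ≠ 0

/-- BZ6 (Bezout, cubic and conic). The same proof with a quadratic form (`V 1 ℝ 2 2`), bound
`3 * 2 = 6`. -/
def Bz6Stmt : Prop := ∀ (c : Fin 10 → ℝ) (e : Fin 6 → ℝ) (p : Fin 7 → V), NoLine c → e ≠ 0 →
  (∀ i j, i ≠ j → cr (p i) (p j) ≠ 0) → ∃ i, cub c (p i) ≠ 0 ∨ quad e (p i) ≠ 0

/-- ZZZ (two cubics of the configuration). Uses BAS, LNF, BZ9. Proof: if `Zc a c ∩ Zc a c'` has ten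
elements then `c' = t • c` by BZ9, and `t ≠ 0` as `c' ≠ 0`, so the sets are equal. A line
contains at most 3 points of `Zc a c`: four points on a line `w⊥` give `cub c = ip w * quad e`
(LNF) and the line is contained in the curve, against `NoLine`. -/
def ZzzStmt : Prop := ∀ (ι : Type) [Fintype ι] (a : ι → V), PI a →
  (∀ c c' : Fin 10 → ℝ, NoLine c → c' ≠ 0 → 10 ≤ (Zc a c ∩ Zc a c').card → Zc a c = Zc a c' ∧
    Mul c c') ∧
  (∀ c : Fin 10 → ℝ, NoLine c → c ≠ 0) ∧
  (∀ (c : Fin 10 → ℝ) (i j : ι), NoLine c → i ≠ j → (ln a i j ∩ Zc a c).card ≤ 3)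

/-- IRD (the cubic of a long run on a line without rich point is irreducible). Uses BAS, LNF.
Proof. Suppose `NoLine c` fails: `cub c` vanishes on the plane spanned by some `u, v`, which is `w⊥`
with `w = cr u v ≠ 0`; by LNF `cub c = ip w * quad e`, `e ≠ 0`. At most `L` points of the
configuration are orthogonal to `w` (if two, then all of them are on one `ln a i j`; `L ≥ 2` as
`L` bounds the size of a line; at most one point is `≤ L`). (1) `quad e` vanishes on no plane
`w'⊥`: otherwise `quad e = ip w' * ip w''` (LNF, `w'' ≠ 0`) and the `2 (N + 2)` different points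
`A i, B i` lie on the three lines `w⊥, w'⊥, w''⊥`, at most `L` on each, against `3 L < 2 N + 4`.
So no three pairwise different points of the configuration on a line are zeros of `quad e` (LNF).
(2) For the `i ≤ N + 1` at most `L` indices `i` have `A i` or `B i` on `w⊥` (different points),
so, as `L < N`, there is `i ≤ N + 1` with `A i, B i` not on `w⊥`, hence on `quad e = 0`; `O` is on
their line; if `O` is not on `w⊥` then it is a zero of `quad e` as well, against (1). So `O` is on
`w⊥`. In the same way `G1` (pairs `A i, B (i+1)`, `i ≤ N`), `Gm` (pairs `A (i+1), B i`), `G2` (pairs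
`A i, B (i+2)`, `i < N`; here at least `N - L > 0` pairs remain). (In each family of pairs a point
belongs to at most one pair.) (3) So `O, Gm, G1, G2` are four points on the line `w⊥`, i.e.
`4 ≤ (ln a O G1).card`, and `O ∈ Rich a`. -/
def IrdStmt : Prop := ∀ (ι : Type) [Fintype ι] (a : ι → V), PI a →
  ∀ (N L : ℕ) (O Gm G1 G2 : ι) (A B : ℕ → ι) (c : Fin 10 → ℝ), IsRun a N O Gm G1 G2 A B →
  2 ≤ N → O ∉ Rich a → 2 ≤ L → (∀ i j, i ≠ j → (ln a i j).card ≤ L) → 3 * L < 2 * N + 4 → L < N →
  c ≠ 0 → cub c (a O) = 0 → cub c (a Gm) = 0 → cub c (a G1) = 0 → cub c (a G2) = 0 →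
  (∀ i ≤ N + 1, cub c (a (A i)) = 0 ∧ cub c (a (B i)) = 0) → NoLine c

/-- IR2. The same as IRD, with a bound of the three lines together in (1): a set
`{i | ip w (a i) = 0}`, `w ≠ 0`, has at most one element or is a member of `lns a`; so three such
sets together have at most `L3 + 3` elements. -/
def Ir2Stmt : Prop := ∀ (ι : Type) [Fintype ι] (a : ι → V), PI a →
  ∀ (N L L3 : ℕ) (O Gm G1 G2 : ι) (A B : ℕ → ι) (c : Fin 10 → ℝ), IsRun a N O Gm G1 G2 A B →
  2 ≤ N → O ∉ Rich a → 2 ≤ L → (∀ i j, i ≠ j → (ln a i j).card ≤ L) →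
  (∀ T : Finset (Finset ι), T ⊆ lns a → T.card ≤ 3 → ∑ ℓ ∈ T, ℓ.card ≤ L3) →
  L3 + 3 < 2 * N + 4 → L < N →
  c ≠ 0 → cub c (a O) = 0 → cub c (a Gm) = 0 → cub c (a G1) = 0 → cub c (a G2) = 0 →
  (∀ i ≤ N + 1, cub c (a (A i)) = 0 ∧ cub c (a (B i)) = 0) → NoLine c

/-- FAM (a family of large sets with small intersections). Proof. (1) For a subfamily of `k` members
`k * M ≤ n + 9 * (k * (k - 1) / 2)` (the union has at least the sum of the sizes minus the sizes of
the pairwise intersections). With `k = 67`, `115 * M ≥ 2 n + 230` this gives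
`67 (2 n + 230) ≤ 115 (n + 19899)`, i.e. `19 n ≤ 2272975`, `n ≤ 119630`, a contradiction. (2) The
points in two different members: at most `9 * (66 * 65 / 2) = 19305`. -/
def FamStmt : Prop := ∀ (ι : Type) [Fintype ι] (F : Finset (Finset ι)) (M : ℕ),
  120000 ≤ Fintype.card ι → 2 * Fintype.card ι + 230 ≤ 115 * M → (∀ C ∈ F, M ≤ C.card) →
  (∀ C ∈ F, ∀ C' ∈ F, C ≠ C' → (C ∩ C').card ≤ 9) →
  F.card ≤ 66 ∧ (univ.filter fun p => ∃ C ∈ F, ∃ C' ∈ F, C ≠ C' ∧ p ∈ C ∧ p ∈ C').card ≤ 19305

/-- NUM (the numbers of stage 1). Proof: `R < n - 19305` as `16 n / 22 < n - 19305`. The inequality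
reads `6 N (16 n - 22 R) + 32 n ≤ (n - R - 19305) (n - 460)`. From `R` to `R + 1` the left side
decreases by `132 N ≥ 132 (n - 114) / 115 ≥ n - 460`, the right side by `n - 460`; so `R = 0` is the
worst case: `96 N n + 32 n ≤ 96 n² / 115 + 32 n` and `(n - 19305) (n - 460) = n² - 19765 n +
8880300`; the difference is `(19/115) n² - 19797 n + 8880300`, which is positive for `n = 120000`
(12.3 * 10^6) and increasing for `n ≥ 120000`. -/
def NumStmt : Prop := ∀ n N R : ℕ, 120000 ≤ n → N = n / 115 → 22 * R ≤ 16 * n →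
  R + 19305 < n ∧
  (3 * (N : ℤ) * (16 * n - 22 * R) + 16 * n) * 2 ≤ (n - R - 19305) * ((n : ℤ) - 460)

/-- ST1 (stage 1: one cubic contains more than half of the points). Uses BAS, CNN, COL, LVX, RUN,
CUB, ZZZ, IRD, FAM, NUM, EBD. Proof. `n = Fintype.card ι`, `N = n / 115`, `L` the largest size of a
line; a line of `m ≠ 3` points has `m (m - 1) ≤ D2 a < 2 n`, so `L (L - 1) < 2 n` or `L = 3`, and
`L < N - 1`, `3 L < 2 (N - 1) + 4` for `n ≥ 120000` (`N ≥ 1043`, `L ≤ 490` for `n = 120000`).
Let `F` be the family of the sets `Zc a c` with `NoLine c` and at least `M = 2 N + 4` elements. By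
ZZZ different members have at most 9 common points; by FAM the set `S` of the points in two members
has at most 19305 elements. For `p` let `ng p` be the number of topes with wall `p` (that is
`4 * rr a p`) minus the number of `NGood a N` data with `d.u = p`; by LVX (1)
`∑ p, ng p ≤ 6 N EE a + BF a ≤ 6 N (8 D2 a - 22 R - 24) + 16 D2 a ≤ 6 N (16 n - 22 R) + 32 n`,
`R = (Rich a).card` (CNN, EBD, `D2 a ≤ 2 n`); in particular `22 R ≤ 16 n`. There is
`p ∉ Rich a ∪ S` with `ng p * (n - R - 19305) ≤ 6 N (16 n - 22 R) + 32 n` (the smallest one), so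
`ng p ≤ n - 460` by NUM. Let `d` be an `NGood a N` datum with `d.u = p`: there is a run of `N`
columns (RUN; `2 N + 5 < n`) with `A 0 = d.v`, `B 0 = d.w'`; its cubic (CUB) has `NoLine` (IRD) and
contains the `2 (N + 1) + 3 ≥ M` different points `A i, B i (i ≤ N), O, Gm, G1`; so it is a member
of `F` containing `p`, and, as `p ∉ S`, it is the same set `C` for all these `d` (if there is one).
A line through `p` which is not `ln a p d.v` for some such `d`: each line is the left line of at
most 4 such data (LVX (2)), so there are at least (number of data)/4 covered lines, and at most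
`rr a p - (4 * rr a p - ng p) / 4 = ng p / 4` lines are not covered. Each line through `p` has at
most 2 other points (`p ∉ Rich a`), and on a covered line `ln a p d.v = {p, d.v, d.w'}` all points
are in `C`. So at most `ng p / 2` points are not in `C` (if there is no `NGood` datum at `p` then
`n - 1 ≤ ng p / 2`, impossible). Hence `2 * (n - C.card) ≤ ng p ≤ n - 460`. -/
def St1Stmt : Prop := ∀ (ι : Type) [Fintype ι] (a : ι → V), PI a → Spn a →
  120000 ≤ Fintype.card ι → D2 a ≤ 2 * Fintype.card ι →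
  ∃ c : Fin 10 → ℝ, NoLine c ∧
    2 * (Fintype.card ι - (Zc a c).card) + 460 ≤ Fintype.card ι

/-- pairs (point on the cubic, point off the cubic) whose line has exactly three points, the third
one on the cubic -/
noncomputable def TT {ι : Type} [Fintype ι] (a : ι → V) (c : Fin 10 → ℝ) : ℕ :=
  (univ.filter fun p : ι × ι => p.1 ∈ Zc a c ∧ p.2 ∉ Zc a c ∧
    ∃ k ∈ Zc a c, k ≠ p.1 ∧ ln a p.1 p.2 = {p.1, p.2, k}).card

/-- UPX (mixed flags end quickly, nine at a time). Uses COL, CN6, RUN, CUB, ZZZ, GDW. The number of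
good `d` with `d.u` on the cubic and exactly one of `d.v`, `d.w'` on it is at most `9 * (6 * EE a)`.
Proof. Follow `Col` from such a `d`: `f 0 = d`, `Col a (f i) (f (i+1))`, as long as possible.
(1) It stops after fewer than `Nm = (n - 6) / 2` columns: otherwise RUN (`2 Nm + 5 < n`) and CUB
give `c' ≠ 0` vanishing at the `2 (Nm + 1) ≥ n - 5` different points `A i, B i`, `i ≤ Nm`; `c'` is
not a multiple of `c` (a point of `d`'s line is off the cubic), so by ZZZ at most 9 of them are on
the cubic and `n - 14 ≤ n - (Zc a c).card`, against `2 (n - (Zc a c).card) + 460 ≤ n`. (2) Let `ψ` be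
the last datum: good, no `Col a ψ f`; there are at most `6 * EE a` such `ψ` (CN6). (3) At most 9 of
the `d` under consideration have the same `ψ`: `Col` is functional and injective (COL), so these
`d` are `f j` for some `j ≤ L`, where `f 0` is the one with the longest way, of `L` columns. If
`L ≤ 2` there are at most 3. If `L ≥ 3` then RUN, CUB give `c' ≠ 0` vanishing at all `A i, B i`,
`i ≤ L` (`A i = (f i).v`, `B i = (f i).w'`), `c'` is not a multiple of `c`, so at most 9 of these
different points are on the cubic, and each `d = f j` has one of `A j, B j` on the cubic. -/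
def UpxStmt : Prop := ∀ (ι : Type) [Fintype ι] (a : ι → V), PI a → Spn a →
  30000 ≤ Fintype.card ι → ∀ c : Fin 10 → ℝ, NoLine c →
  2 * (Fintype.card ι - (Zc a c).card) + 460 ≤ Fintype.card ι →
  {d : Dat ι | Good a d ∧ d.u ∈ Zc a c ∧ ((d.v ∈ Zc a c ∧ d.w' ∉ Zc a c) ∨
    (d.v ∉ Zc a c ∧ d.w' ∈ Zc a c))}.ncard ≤ 9 * (6 * EE a)

/-- UPP (upper bound of mixed triples). Uses BAS, UPX, LVX, GDW, EBD. Proof. For `p` on the cubic let
`t p` be the number of the lines `{p, q, k}` of exactly 3 points with `k ≠ p` on the cubic and `q`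
off it; `TT a c = ∑ p, t p`. The good data with `d.u = p` are distributed over the lines through `p`
(left line `ln a p d.v`), at most 4 on each, and their number is `4 * rr a p` minus the number
`bf p` of topes with wall `p` which are not good (LVX). So at least `4 * t p - bf p` good data have
their left line among the `t p` lines; these are counted by UPX. Sum over `p`:
`4 * TT a c ≤ 9 * (6 * EE a) + BF a ≤ 54 * 8 * D2 a + 16 * D2 a` (EBD). -/
def UppStmt : Prop := ∀ (ι : Type) [Fintype ι] (a : ι → V), PI a → Spn a →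
  30000 ≤ Fintype.card ι → ∀ c : Fin 10 → ℝ, NoLine c →
  2 * (Fintype.card ι - (Zc a c).card) + 460 ≤ Fintype.card ι →
  4 * TT a c ≤ 448 * D2 a

end Pool.Agent.GTO
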