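import Pool.Agent.GTO.StmtsB3

/-! Squad GTO (MP_122998_co): counting lemmas of stage 1 for `n ≥ 30000`. -/

namespace Pool.Agent.GTO.B3

open Finset
open scoped Classical

/-- FA2 (a family of sets with small intersections which covers most pairs). Uses nothing. Let
`k = F.card`, `r p` the number of members of `F` containing `p`, `s = ∑ C ∈ F, C.card = ∑ p, r p`,
`S = ∑ p ∈ univ \ R, ng p`, `X = (n + 459) / 2` (real). Proof.
(1) For each member `(C.card - M) (n + 459 - 2 C.card) ≥ 0`, so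
`2 C.card ^ 2 ≤ (n + 459 + 2 M) C.card - M (n + 459)`; sum over `F`. Hypothesis summed over `p ∉ R`:
`2 (n - R.card) (n - 1) ≤ 2 ∑ p, ∑ C ∋ p, (C.card - 1) + S = 2 ∑ C ∈ F, C.card (C.card - 1) + S`
`= 2 ∑ C.card ^ 2 - 2 s + S`. Together the first inequality.
(2) `∑ p, r p ^ 2 = ∑ C ∈ F, ∑ C' ∈ F, (C ∩ C').card ≤ s + 9 k (k - 1)` and `s ^ 2 ≤ n ∑ p, r p ^ 2`
(Cauchy).
(3) At most 4 members have `4 C.card ≥ n`: five of them would have a union of at least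
`5 n / 4 - 9 * 10 > n` points. Let `E` be the set of the points in two different members with
`4 C.card ≥ n`: `E.card ≤ 9 * 6 = 54`. Put `w p = 2` if `r p ≤ 1`, `w p = 1` if `r p = 2`, `w p = 0` if
`r p ≥ 3`. For `p ∉ R`, `p ∉ E`: `2 ng p ≥ (n - 918) w p`: if `r p ≤ 1` then
`ng p ≥ 2 (n - 1) - 2 (X - 1) = n - 459`; if `r p = 2` then one of the two members has less than
`n / 4` points and `ng p ≥ 2 (n - 1) - (n + 459 - 2) - (n / 2 - 2) ≥ n / 2 - 459`. For `p ∈ E` one has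
`w p ≤ 1`. So `(n - 918) ∑ p ∉ R, w p ≤ 2 S + 54 (n - 918)`. And `r (r - 1) ≥ 4 - 2 w` for all `p`,
`∑ p, r p (r p - 1) ≤ 9 k (k - 1)` by (2), so `4 (n - R.card) ≤ 9 k (k - 1) + 2 ∑ p ∉ R, w p`. -/
def Fa2Stmt : Prop := ∀ (ι : Type) [Fintype ι] (F : Finset (Finset ι)) (M n : ℕ) (R : Finset ι)
  (ng : ι → ℕ), n = Fintype.card ι → 1000 ≤ n →
  (∀ C ∈ F, M ≤ C.card ∧ 2 * C.card < n + 460) →
  (∀ C ∈ F, ∀ C' ∈ F, C ≠ C' → (C ∩ C').card ≤ 9) →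
  (∀ p, p ∉ R → 2 * (n - 1) ≤ 2 * ∑ C ∈ F.filter (fun C => p ∈ C), (C.card - 1) + ng p) →
  ∃ s : ℕ,
    F.card * M * (n + 459) + 2 * (n - R.card) * (n - 1) ≤
      (2 * M + n + 457) * s + ∑ p ∈ univ \ R, ng p ∧
    s * s ≤ n * (s + 9 * (F.card * (F.card - 1))) ∧
    4 * (n - R.card) * (n - 918) ≤ 9 * (F.card * (F.card - 1)) * (n - 918) +
      4 * ∑ p ∈ univ \ R, ng p + 108 * (n - 918)

/-- NM2 (the numbers of stage 1, threshold 30000). Uses nothing. Proof, in real numbers; `k ^ 2`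
stands for `k * k`, `P = k (k - 1)`, `M = 2 N + 4`.
Bounds: `n / 100 - 0.99 ≤ N ≤ n / 100`, so `0.02 n + 2.02 ≤ M ≤ 0.02 n + 4` and
`S ≤ 0.96 n ^ 2 + 32 n - 1.32 n R + 130.68 R`.
(h1, h2, h3 are the last three hypotheses.)
(A) From h3, dividing by `n - 918 ≥ 0.9694 n`:
`9 P / 4 ≥ n - R - 27 - S / (n - 918) ≥ 0.04 n - 969.5 + 0.32 R`
(`(0.96 n ^ 2 + 32 n) / (n - 918) ≤ 0.96 n + 942.5` for `n ≥ 30000`,
`(1.32 n - 130.68) / (n - 918) ≥ 1.32`).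
(B) Put `s = n + δ`. From h1, if `δ ≥ 0`:
`k (0.02 n + 11.2) ≤ 1.0555 δ + 499 + 0.6843 R`; if `δ < 0` the same with `0` in place of `δ`. (Insert
the bounds of `M`, `S` and divide by `n`: the left side is
`k M (n + 459) ≥ k (0.02 n ^ 2 + 11.2 n)`, the right side
`(1.04 n + 465) (n + δ) - 2 (n - R) (n - 1) + S ≤ (1.04 n + 465) δ + 499 n + (0.68 n + 128.68) R`.)
Let `T = (k (0.02 n + 11.2) - 499 - 0.6843 R) / 1.0555`. We show `T > 0` and `T (n + T) > 9 n P`;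
then `δ ≥ T > 0`, and h2 reads `(n + δ) δ ≤ 9 n P`, a contradiction.
(C) `k ≥ 57`. `R ≤ 8 n / 11`, so `T ≥ n (a k - b) + (c k - d)` with `a = 0.018948`, `b = 0.4716`,
`c = 10.61`, `d = 472.8`; here `a k - b > 0.6`, `c k - d > 0`. As a function of `n`,
`T (n + T) - 9 n P ≥ n ^ 2 A + n B` with `A = (a k - b) (a k - b + 1)`,
`B = (c k - d) (2 (a k - b) + 1) - 9 P`, and
`30000 A + B = 2.17 k ^ 2 + 24 k - 7503 + .. > 0` for `k ≥ 57`, `A > 0`.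
(D) `k ≤ 56`. By (A) `R ≤ 7.03125 P - 0.125 n + 3029.7`, so
`1.0555 T ≥ k (0.02 n + 11.2) - 4.8115 P + 0.08553 n - 2572.3 ≥ k (0.02 n - 253.5) - 6.5` (as
`4.8115 (k - 1) ≤ 264.7`). By (A) and `n ≥ 30000`, `P ≥ 102`, so `k ≥ 10`, and `T ≥ k σ` with
`σ = 0.018948 n - 241`, `σ ≥ 327` for `n = 30000`. `k σ (n + k σ) > 9 n k (k - 1)` is equivalent to
`n (σ + 9) > k (9 n - σ ^ 2)`; if `9 n > σ ^ 2` it is enough for `k = 56`:
`56 σ ^ 2 + n σ - 495 n > 0`, which is `0.9 * 10 ^ 6` for `n = 30000` and increasing. -/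
def Nm2Stmt : Prop := ∀ n N R k s S : ℕ, 30000 ≤ n → N = n / 100 → 22 * R ≤ 16 * n →
  S + 132 * N * R ≤ 96 * N * n + 32 * n →
  k * (2 * N + 4) * (n + 459) + 2 * (n - R) * (n - 1) ≤
    (2 * (2 * N + 4) + n + 457) * s + S →
  s * s ≤ n * (s + 9 * (k * (k - 1))) →
  4 * (n - R) * (n - 918) ≤ 9 * (k * (k - 1)) * (n - 918) + 4 * S + 108 * (n - 918) → False

/-- THL (three lines). Uses BAS. Proof. Let `T` be a set of at most three lines, `m` their sizes. The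
ones with `m ≠ 3` satisfy `∑ m (m - 1) ≤ D2 a ≤ 2 n` (BAS: `D2 a` is the sum over these lines), so for
all the three `∑ m (m - 1) ≤ 2 n + 18`, and `(∑ m) ^ 2 ≤ 3 ∑ m ^ 2 ≤ 3 (2 n + 18 + ∑ m)`, so
`∑ m ≤ L3` as soon as `(L3 + 1) ^ 2 > 3 (2 n + 18 + L3 + 1)`. -/
def ThlStmt : Prop := ∀ (ι : Type) [Fintype ι] (a : ι → V), PI a → ∀ n L3 : ℕ,
  D2 a ≤ 2 * n → 3 * (2 * n + 18 + L3 + 1) < (L3 + 1) * (L3 + 1) →
  ∀ T : Finset (Finset ι), T ⊆ lns a → T.card ≤ 3 → ∑ ℓ ∈ T, ℓ.card ≤ L3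

end Pool.Agent.GTO.B3
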